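import Mathlib

open MeasureTheory

namespace Run7.h189.AR

/-- All but finitely many eigenvalues of the operator `f ↦ ∑ j, (f (a j * x) + f ((a j)⁻¹ * x))` on
the functions of mean zero in `L²(G, μ)` lie in `[-c, c]`: the quadratic form is bounded by `c` in
absolute value on the orthogonal complement of finitely many functions. -/
def BoundedBy {G : Type} [Group G] [MeasurableSpace G] (μ : Measure G) {m : ℕ} (a : Fin m → G)
    (c : ℝ) : Prop :=
  ∃ (n : ℕ) (g : Fin n → G → ℂ), (∀ i, MemLp (g i) 2 μ) ∧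
    ∀ f : G → ℂ, MemLp f 2 μ → ∫ x, f x ∂μ = 0 →
      (∀ i, ∫ x, f x * starRingEnd ℂ (g i x) ∂μ = 0) →
      |(∫ x, (∑ j, (f (a j * x) + f ((a j)⁻¹ * x))) * starRingEnd ℂ (f x) ∂μ).re|
        ≤ c * ∫ x, ‖f x‖ ^ 2 ∂μ

/-- The symmetric `2m`-tuple of `a` is asymptotically Ramanujan. -/
def AsympRamanujan {G : Type} [Group G] [MeasurableSpace G] (μ : Measure G) {m : ℕ}
    (a : Fin m → G) : Prop :=
  ∀ ε : ℝ, 0 < ε → BoundedBy μ a (2 * Real.sqrt (2 * (m : ℝ) - 1) + ε)

/-- An elementary Nielsen move: permute the entries, invert one entry, or multiply one entry on the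
left by another one. -/
def NielsenMove {G : Type} [Group G] {m : ℕ} (a b : Fin m → G) : Prop :=
  (∃ σ : Equiv.Perm (Fin m), b = a ∘ σ) ∨ (∃ i, b = Function.update a i (a i)⁻¹) ∨
    ∃ i j, i ≠ j ∧ b = Function.update a i (a j * a i)

/-- `b` is Nielsen equivalent to `a`: it is obtained by finitely many elementary Nielsen moves. -/
def NielsenEquiv {G : Type} [Group G] {m : ℕ} (a b : Fin m → G) : Prop :=
  Relation.ReflTransGen NielsenMove a b

end Run7.h189.AR
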