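import Pool.Agent.Run7.h189.AR.Defs

open MeasureTheory

namespace Run7.h189.AR

/-- On the functions of mean zero the quadratic form of the operator
`f ↦ ∑ j, (f (a j * x) + f ((a j)⁻¹ * x))` is bounded by `c` in absolute value on the orthogonal
complement of `N` functions. -/
def BoundedByN {G : Type} [Group G] [MeasurableSpace G] (μ : Measure G) {m : ℕ} (a : Fin m → G)
    (c : ℝ) (N : ℕ) : Prop :=
  ∃ g : Fin N → G → ℂ, (∀ i, MemLp (g i) 2 μ) ∧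
    ∀ f : G → ℂ, MemLp f 2 μ → ∫ x, f x ∂μ = 0 →
      (∀ i, ∫ x, f x * starRingEnd ℂ (g i x) ∂μ = 0) →
      |(∫ x, (∑ j, (f (a j * x) + f ((a j)⁻¹ * x))) * starRingEnd ℂ (f x) ∂μ).re|
        ≤ c * ∫ x, ‖f x‖ ^ 2 ∂μ

/-- The tuple `a` has a spectral gap: on the functions of mean zero the spectrum of
`f ↦ ∑ j, (f (a j * x) + f ((a j)⁻¹ * x))` is bounded above by `2 * m - δ` for some `δ > 0`. -/
def HasGap {G : Type} [Group G] [MeasurableSpace G] (μ : Measure G) {m : ℕ} (a : Fin m → G) :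
    Prop :=
  ∃ δ : ℝ, 0 < δ ∧ ∀ f : G → ℂ, MemLp f 2 μ → ∫ x, f x ∂μ = 0 →
    (∫ x, (∑ j, (f (a j * x) + f ((a j)⁻¹ * x))) * starRingEnd ℂ (f x) ∂μ).re
      ≤ (2 * (m : ℝ) - δ) * ∫ x, ‖f x‖ ^ 2 ∂μ

end Run7.h189.AR
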