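import Pool.Agent.Run7.h189.AR.Uniform

/-! Genericity of the asymptotically Ramanujan property implies a spectral gap almost
everywhere. -/

open MeasureTheory Set Filter Topology

namespace Run7.h189.AR

section
variable {G : Type} [Group G] [TopologicalSpace G] [IsTopologicalGroup G] [CompactSpace G]
  [T2Space G] [SecondCountableTopology G] [MeasurableSpace G] [BorelSpace G]
  (μ : Measure G) [μ.IsHaarMeasure]

/-- the constant function `1` -/
noncomputable def one : Lp ℂ 2 μ := (memLp_const (1 : ℂ)).toLp (fun _ : G => (1 : ℂ))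

theorem one_ae : (one μ : G → ℂ) =ᵐ[μ] fun _ => 1 := MemLp.coeFn_toLp _

theorem inner_one (f : Lp ℂ 2 μ) (g : G → ℂ) (hg : f =ᵐ[μ] g) :
    inner ℂ (one μ) f = ∫ x, g x ∂μ := by
  rw [inner_eq μ f (one μ) g (fun _ => 1) hg (one_ae μ)]
  simp

theorem norm_U (c : G) (f : Lp ℂ 2 μ) : ‖U μ c f‖ = ‖f‖ :=
  (Lp.compMeasurePreservingₗᵢ ℂ (fun x => c * x) (measurePreserving_mul_left μ c)).norm_map f

/-- the basic identity -/
theorem gap_identity {m : ℕ} (a : Fin m → G) (F : Lp ℂ 2 μ) :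
    2 * (m : ℝ) * ‖F‖ ^ 2 - (inner ℂ F (D μ a F)).re = ∑ j, ‖U μ (a j) F - F‖ ^ 2 := by
  have h1 : ∀ j, ‖U μ (a j) F - F‖ ^ 2 =
      2 * ‖F‖ ^ 2 - (inner ℂ F (U μ (a j) F + U μ (a j)⁻¹ F)).re := by
    intro j
    have h2 := norm_sub_sq (𝕜 := ℂ) (U μ (a j) F) F
    rw [norm_U] at h2
    rw [h2, inner_add_right, Complex.add_re]
    have h3 : inner ℂ F (U μ (a j)⁻¹ F) = inner ℂ (U μ (a j) F) F := (U_adj μ (a j) F F).symm
    have h4 : (inner ℂ F (U μ (a j) F)).re = (inner ℂ (U μ (a j) F) F).re := by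
      rw [← inner_conj_symm, Complex.conj_re]
    rw [h3, h4]
    change _ - 2 * (inner ℂ (U μ (a j) F) F).re + _ = _
    ring
  simp_rw [h1]
  rw [Finset.sum_sub_distrib, Finset.sum_const, Finset.card_univ, Fintype.card_fin, nsmul_eq_mul,
    D_apply, inner_sum, Complex.re_sum]
  ring

/-- gap in terms of almost invariant vectors -/
def KGap {m : ℕ} (a : Fin m → G) : Prop :=
  ∃ η : ℝ, 0 < η ∧ ∀ F : Lp ℂ 2 μ, inner ℂ (one μ) F = 0 → ∃ j, η * ‖F‖ ≤ ‖U μ (a j) F - F‖

/-- the form version of the gap -/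
def OGap {m : ℕ} (a : Fin m → G) : Prop :=
  ∃ δ : ℝ, 0 < δ ∧ ∀ F : Lp ℂ 2 μ, inner ℂ (one μ) F = 0 →
    (inner ℂ F (D μ a F)).re ≤ (2 * (m : ℝ) - δ) * ‖F‖ ^ 2

theorem hasGap_iff {m : ℕ} (a : Fin m → G) : HasGap μ a ↔ OGap μ a := by
  constructor
  · rintro ⟨δ, hδ, h⟩
    refine ⟨δ, hδ, fun F hF => ?_⟩
    have h2 := h F (Lp.memLp F) (by rw [← inner_one μ F F (ae_eq_refl _)]; exact hF)
    rw [← form_eq μ a F F (ae_eq_refl _), ← norm_sq_eq μ F F (ae_eq_refl _)] at h2
    exact h2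
  · rintro ⟨δ, hδ, h⟩
    refine ⟨δ, hδ, fun f hf h0 => ?_⟩
    have h1 := h (hf.toLp f) (by rw [inner_one μ _ f (MemLp.coeFn_toLp _)]; exact h0)
    rw [form_eq μ a _ f (MemLp.coeFn_toLp _), norm_sq_eq μ _ f (MemLp.coeFn_toLp _)] at h1
    exact h1

theorem oGap_iff_kGap {m : ℕ} (a : Fin (m + 1) → G) : OGap μ a ↔ KGap μ a := by
  constructor
  · rintro ⟨δ, hδ, h⟩
    refine ⟨Real.sqrt (δ / ((m + 1 : ℕ) : ℝ)), by positivity, fun F hF => ?_⟩
    by_contra hcon
    push Not at hcon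
    have h1 : ∀ j, ‖U μ (a j) F - F‖ ^ 2 < δ / ((m + 1 : ℕ) : ℝ) * ‖F‖ ^ 2 := by
      intro j
      have h2 := hcon j
      have h3 : ‖U μ (a j) F - F‖ ^ 2 < (Real.sqrt (δ / ((m + 1 : ℕ) : ℝ)) * ‖F‖) ^ 2 :=
        pow_lt_pow_left₀ h2 (norm_nonneg _) two_ne_zero
      rwa [mul_pow, Real.sq_sqrt (by positivity)] at h3
    have h2 : ∑ j, ‖U μ (a j) F - F‖ ^ 2 < ∑ _j : Fin (m + 1), δ / ((m + 1 : ℕ) : ℝ) * ‖F‖ ^ 2 :=
      Finset.sum_lt_sum_of_nonempty Finset.univ_nonempty fun j _ => h1 j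
    rw [Finset.sum_const, Finset.card_univ, Fintype.card_fin, nsmul_eq_mul, ← gap_identity] at h2
    have h3 := h F hF
    have h4 : ((m + 1 : ℕ) : ℝ) * (δ / ((m + 1 : ℕ) : ℝ) * ‖F‖ ^ 2) = δ * ‖F‖ ^ 2 := by
      have : ((m + 1 : ℕ) : ℝ) ≠ 0 := by positivity
      field_simp
    rw [h4] at h2
    linarith
  · rintro ⟨η, hη, h⟩
    refine ⟨η ^ 2, by positivity, fun F hF => ?_⟩
    obtain ⟨j, hj⟩ := h F hF
    have h1 := gap_identity μ a F
    have h2 : ‖U μ (a j) F - F‖ ^ 2 ≤ ∑ j, ‖U μ (a j) F - F‖ ^ 2 :=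
      Finset.single_le_sum (f := fun j => ‖U μ (a j) F - F‖ ^ 2) (fun i _ => by positivity)
        (Finset.mem_univ j)
    have h3 : (η * ‖F‖) ^ 2 ≤ ‖U μ (a j) F - F‖ ^ 2 :=
      pow_le_pow_left₀ (by positivity) hj 2
    nlinarith

theorem kGap_mul {m : ℕ} (a : Fin m → G) {i j : Fin m} (hij : i ≠ j) :
    KGap μ (Function.update a i (a j * a i)) ↔ KGap μ a := by
  have hU : ∀ F, U μ (a j * a i) F = U μ (a i) (U μ (a j) F) := fun F => (U_mul μ _ _ F).symm
  constructor
  · rintro ⟨η, hη, h⟩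
    refine ⟨η / 2, by positivity, fun F hF => ?_⟩
    by_contra hcon
    push Not at hcon
    obtain ⟨l, hl⟩ := h F hF
    by_cases hli : l = i
    · subst hli
      rw [Function.update_self, hU] at hl
      have h1 : U μ (a l) (U μ (a j) F) - F =
          U μ (a l) (U μ (a j) F - F) + (U μ (a l) F - F) := by
        rw [map_sub]; abel
      have h2 := norm_add_le (U μ (a l) (U μ (a j) F - F)) (U μ (a l) F - F)
      rw [← h1, norm_U] at h2
      have h3 := hcon j
      have h4 := hcon l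
      linarith
    · rw [Function.update_of_ne hli] at hl
      have h3 := hcon l
      have h4 := norm_nonneg F
      nlinarith
  · rintro ⟨η, hη, h⟩
    refine ⟨η / 2, by positivity, fun F hF => ?_⟩
    by_contra hcon
    push Not at hcon
    obtain ⟨l, hl⟩ := h F hF
    by_cases hli : l = i
    · subst hli
      have h3 := hcon j
      rw [Function.update_of_ne hij.symm] at h3
      have h4 := hcon l
      rw [Function.update_self, hU] at h4
      have h1 : U μ (a l) F - F =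
          (U μ (a l) (U μ (a j) F) - F) - U μ (a l) (U μ (a j) F - F) := by
        rw [map_sub]; abel
      have h2 := norm_sub_le (U μ (a l) (U μ (a j) F) - F) (U μ (a l) (U μ (a j) F - F))
      rw [← h1, norm_U] at h2
      linarith
    · have h3 := hcon l
      rw [Function.update_of_ne hli] at h3
      have h4 := norm_nonneg F
      nlinarith

theorem measurableSet_oGap (m : ℕ) : MeasurableSet {a : Fin m → G | OGap μ a} := by
  have : {a : Fin m → G | OGap μ a} = ⋃ k : ℕ, {a : Fin m → G | ∀ F : Lp ℂ 2 μ,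
      inner ℂ (one μ) F = 0 → (inner ℂ F (D μ a F)).re ≤
        (2 * (m : ℝ) - 1 / ((k : ℝ) + 1)) * ‖F‖ ^ 2} := by
    ext a
    simp only [mem_setOf_eq, mem_iUnion]
    constructor
    · rintro ⟨δ, hδ, h⟩
      obtain ⟨k, hk⟩ := exists_nat_one_div_lt hδ
      refine ⟨k, fun F hF => (h F hF).trans ?_⟩
      refine mul_le_mul_of_nonneg_right ?_ (by positivity)
      linarith
    · rintro ⟨k, h⟩
      exact ⟨1 / ((k : ℝ) + 1), by positivity, h⟩
  rw [this]
  refine MeasurableSet.iUnion fun k => IsClosed.measurableSet ?_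
  simp only [ofPred_forall]
  refine isClosed_iInter fun F => isClosed_iInter fun _ => ?_
  have h1 : Continuous fun a : Fin m → G => (inner ℂ F (D μ a F)).re :=
    Complex.continuous_re.comp (continuous_const.inner (D_cont μ F))
  exact isClosed_le h1 continuous_const

/-- invariant vectors are constant -/
theorem invariant_zero (F : Lp ℂ 2 μ) (hF : ∀ g, U μ g F = F) (h0 : inner ℂ (one μ) F = 0) :
    F = 0 := by
  have h1 : ∀ g : G, ∀ᵐ x ∂μ, F (g * x) = F x := by
    intro g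
    filter_upwards [U_ae μ g F] with x hx
    rw [← hx, hF g]
  obtain ⟨z, hz⟩ : ∃ z, (F : G → ℂ) =ᵐ[μ] Function.const G z := by
    refine exists_eventuallyEq_const_of_forall_separating MeasurableSet fun V hV => ?_
    have h2 : EventuallyConst ((F : G → ℂ) ⁻¹' V) (ae μ) := by
      refine MeasureTheory.aeconst_of_forall_preimage_smul_ae_eq G
        ((Lp.aestronglyMeasurable F).aemeasurable.nullMeasurable hV) fun g => ?_
      filter_upwards [h1 g] with x hx
      refine propext ?_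
      change F (g * x) ∈ V ↔ F x ∈ V
      rw [hx]
    rcases eventuallyConst_set.1 h2 with h3 | h3
    · exact Or.inl h3
    · exact Or.inr h3
  have h3 := inner_one μ F _ hz
  rw [h0] at h3
  have h4 : z = 0 := by
    simp only [Function.const] at h3
    rw [integral_const, eq_comm, smul_eq_zero] at h3
    rcases h3.symm with h5 | h5
    · exact h5
    · exfalso
      have h6 : μ univ ≠ 0 := (isOpen_univ.measure_pos μ univ_nonempty).ne'
      rw [measureReal_def, ENNReal.toReal_eq_zero_iff] at h5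
      rcases h5 with h5 | h5
      · exact h6 h5
      · exact measure_ne_top μ univ h5
  apply Lp.ext
  filter_upwards [hz, Lp.coeFn_zero ℂ 2 μ] with x hx hx0
  rw [hx, hx0, h4]
  rfl

end

end Run7.h189.AR
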