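import Pool.Agent.Run7.h189.AR.Gap

/-! Genericity of the asymptotically Ramanujan property implies a spectral gap almost
everywhere: the end of the proof. -/

open MeasureTheory Set Filter Topology

namespace Run7.h189.AR

section
variable {L : Type*} [NormedAddCommGroup L] [InnerProductSpace ℂ L] [CompleteSpace L]

/-- weak limits along an ultrafilter -/
theorem exists_weak_limit (V : Ultrafilter ℕ) (F : ℕ → L) (hF : ∀ k, ‖F k‖ ≤ 1) :
    ∃ F0 : L, ∀ h : L, Tendsto (fun k => inner ℂ (F k) h) V (𝓝 (inner ℂ F0 h)) := by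
  have hlim : ∀ h : L, ∃ z : ℂ, Tendsto (fun k => inner ℂ (F k) h) V (𝓝 z) ∧ ‖z‖ ≤ ‖h‖ := by
    intro h
    have hc : IsCompact (Metric.closedBall (0 : ℂ) ‖h‖) := isCompact_closedBall _ _
    have hmem : ∀ k, inner ℂ (F k) h ∈ Metric.closedBall (0 : ℂ) ‖h‖ := by
      intro k
      rw [mem_closedBall_zero_iff]
      calc ‖inner ℂ (F k) h‖ ≤ ‖F k‖ * ‖h‖ := norm_inner_le_norm _ _
        _ ≤ 1 * ‖h‖ := mul_le_mul_of_nonneg_right (hF k) (norm_nonneg _)
        _ = ‖h‖ := one_mul _
    have hVm : ((V.map fun k => inner ℂ (F k) h : Ultrafilter ℂ) : Filter ℂ) ≤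
        𝓟 (Metric.closedBall (0 : ℂ) ‖h‖) := by
      rw [le_principal_iff, Ultrafilter.coe_map]
      exact Filter.mem_map.2 (Filter.Eventually.of_forall hmem)
    obtain ⟨z, hz, hle⟩ := hc.ultrafilter_le_nhds (V.map fun k => inner ℂ (F k) h) hVm
    exact ⟨z, hle, by simpa using hz⟩
  choose φ hφ hφn using hlim
  let ψ : L →ₗ[ℂ] ℂ :=
    { toFun := φ
      map_add' := by
        intro x y
        refine tendsto_nhds_unique (hφ (x + y)) ?_
        have := (hφ x).add (hφ y)
        refine this.congr fun k => ?_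
        rw [inner_add_right]
      map_smul' := by
        intro r x
        refine tendsto_nhds_unique (hφ (r • x)) ?_
        have := (hφ x).const_mul r
        refine this.congr fun k => ?_
        rw [inner_smul_right] }
  let Φ : L →L[ℂ] ℂ := ψ.mkContinuous 1 (fun x => by rw [one_mul]; exact hφn x)
  refine ⟨(InnerProductSpace.toDual ℂ L).symm Φ, fun h => ?_⟩
  rw [InnerProductSpace.toDual_symm_apply]
  exact hφ h

/-- a weakly null sequence keeps its form off finitely many vectors -/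
theorem form_off {T : L →L[ℂ] L} (V : Ultrafilter ℕ) (F : ℕ → L) (hF : ∀ k, ‖F k‖ = 1)
    (hw : ∀ h : L, Tendsto (fun k => inner ℂ (F k) h) V (𝓝 0)) {A c : ℝ}
    (hA : Tendsto (fun k => (inner ℂ (F k) (T (F k))).re) V (𝓝 A))
    (n : ℕ) (g : Fin n → L)
    (hg : ∀ f : L, (∀ i, inner ℂ (g i) f = 0) → (inner ℂ f (T f)).re ≤ c * ‖f‖ ^ 2) : A ≤ c := by
  classical
  let K : Submodule ℂ L := Submodule.span ℂ (Set.range g)
  haveI : FiniteDimensional ℂ K := FiniteDimensional.span_of_finite ℂ (Set.finite_range g)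
  let e := stdOrthonormalBasis ℂ K
  let P : ℕ → L := fun k => ∑ i, inner ℂ ((e i : K) : L) (F k) • ((e i : K) : L)
  have hP0 : Tendsto P V (𝓝 0) := by
    have h1 : ∀ i, Tendsto (fun k => inner ℂ ((e i : K) : L) (F k) • ((e i : K) : L)) V (𝓝 0) := by
      intro i
      have h2 : Tendsto (fun k => inner ℂ ((e i : K) : L) (F k)) V (𝓝 0) := by
        have h3 := (hw (e i)).star
        simp only [star_zero] at h3
        refine h3.congr fun k => ?_
        exact inner_conj_symm _ _
      have h4 := h2.smul_const ((e i : K) : L)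
      simpa using h4
    have h5 := tendsto_finsetSum (Finset.univ) fun i _ => h1 i
    simpa using h5
  have horth : ∀ k i, inner ℂ (g i) (F k - P k) = 0 := by
    intro k i
    have h1 : ∀ j, inner ℂ ((e j : K) : L) (F k - P k) = 0 := by
      intro j
      rw [inner_sub_right]
      have h2 : inner ℂ ((e j : K) : L) (P k) = inner ℂ ((e j : K) : L) (F k) := by
        simp only [P]
        rw [inner_sum]
        rw [Finset.sum_eq_single j]
        · rw [inner_smul_right]
          have h3 : inner ℂ ((e j : K) : L) ((e j : K) : L) = (1 : ℂ) := by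
            have h4 := (orthonormal_iff_ite.1 e.orthonormal) j j
            rw [if_pos rfl] at h4
            exact h4
          rw [h3, mul_one]
        · intro b _ hb
          rw [inner_smul_right]
          have h3 : inner ℂ ((e j : K) : L) ((e b : K) : L) = (0 : ℂ) := by
            have h4 := (orthonormal_iff_ite.1 e.orthonormal) j b
            rw [if_neg hb.symm] at h4
            exact h4
          rw [h3, mul_zero]
        · intro h; exact absurd (Finset.mem_univ _) h
      rw [h2, sub_self]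
    have hgK : g i ∈ K := Submodule.subset_span ⟨i, rfl⟩
    have h2 := e.sum_repr ⟨g i, hgK⟩
    have h3 : g i = ∑ j, (e.repr ⟨g i, hgK⟩) j • ((e j : K) : L) := by
      have h4 := congrArg (fun x : K => (x : L)) h2
      simp only [Submodule.coe_sum, Submodule.coe_smul] at h4
      exact h4.symm
    rw [h3, sum_inner]
    refine Finset.sum_eq_zero fun j _ => ?_
    rw [inner_smul_left, h1 j, mul_zero]
  have hbd : ∀ k, (inner ℂ (F k - P k) (T (F k - P k))).re ≤ c * ‖F k - P k‖ ^ 2 :=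
    fun k => hg _ (horth k)
  -- limits
  have hn : Tendsto (fun k => ‖F k - P k‖ ^ 2) V (𝓝 1) := by
    have h1 : Tendsto (fun k => ‖F k - P k‖) V (𝓝 1) := by
      have h2 : Tendsto (fun k => ‖F k - P k‖ - ‖F k‖) V (𝓝 0) := by
        refine squeeze_zero_norm (fun k => ?_) (by simpa using hP0.norm)
        have := abs_norm_sub_norm_le (F k - P k) (F k)
        rw [Real.norm_eq_abs]
        refine this.trans (le_of_eq ?_)
        rw [show F k - P k - F k = -P k by abel, norm_neg]
      have h3 := h2.add_const 1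
      simp only [zero_add] at h3
      refine h3.congr fun k => ?_
      rw [hF k]; ring
    simpa using h1.pow 2
  have hz : ∀ (x y : ℕ → L) (C : ℝ), (∀ k, ‖x k‖ ≤ C) → Tendsto y V (𝓝 0) →
      Tendsto (fun k => (inner ℂ (x k) (y k)).re) V (𝓝 0) := by
    intro x y C hx hy
    refine squeeze_zero_norm (a := fun k => C * ‖y k‖) (fun k => ?_) (by
      have := hy.norm.const_mul C
      simpa using this)
    rw [Real.norm_eq_abs]
    calc |(inner ℂ (x k) (y k)).re| ≤ ‖inner ℂ (x k) (y k)‖ := Complex.abs_re_le_norm _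
      _ ≤ ‖x k‖ * ‖y k‖ := norm_inner_le_norm _ _
      _ ≤ C * ‖y k‖ := mul_le_mul_of_nonneg_right (hx k) (norm_nonneg _)
  have hz' : ∀ (x y : ℕ → L) (C : ℝ), (∀ k, ‖x k‖ ≤ C) → Tendsto y V (𝓝 0) →
      Tendsto (fun k => (inner ℂ (y k) (x k)).re) V (𝓝 0) := by
    intro x y C hx hy
    refine (hz x y C hx hy).congr fun k => ?_
    rw [← inner_conj_symm, Complex.conj_re]
  have hTP : Tendsto (fun k => T (P k)) V (𝓝 0) := by
    have h0 : Tendsto (fun k => T (P k)) V (𝓝 (T 0)) := (T.continuous.tendsto 0).comp hP0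
    rw [map_zero] at h0
    exact h0
  have hTF : ∀ k, ‖T (F k)‖ ≤ ‖T‖ := fun k => by
    have := T.le_opNorm (F k)
    rwa [hF k, mul_one] at this
  have hform : Tendsto (fun k => (inner ℂ (F k - P k) (T (F k - P k))).re) V (𝓝 A) := by
    have h1 := hz F (fun k => T (P k)) 1 (fun k => (hF k).le) hTP
    have h2 := hz' (fun k => T (F k)) P ‖T‖ hTF hP0
    have h3 : Tendsto (fun k => (inner ℂ (P k) (T (P k))).re) V (𝓝 0) := by
      have h4 : Tendsto (fun k => inner ℂ (P k) (T (P k))) V (𝓝 (inner ℂ (0 : L) (0 : L))) :=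
        hP0.inner hTP
      have h5 : Tendsto (fun k => (inner ℂ (P k) (T (P k))).re) V
          (𝓝 (inner ℂ (0 : L) (0 : L)).re) := (Complex.continuous_re.tendsto _).comp h4
      simp only [inner_zero_left, Complex.zero_re] at h5
      exact h5
    have h4 := ((hA.sub h1).sub h2).add h3
    simp only [sub_zero, add_zero] at h4
    refine h4.congr fun k => ?_
    rw [map_sub, inner_sub_left, inner_sub_right, inner_sub_right]
    simp only [Complex.sub_re]
    ring
  have := le_of_tendsto_of_tendsto' hform (hn.const_mul c) hbd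
  simpa using this

end

section
variable {G : Type} [Group G] [TopologicalSpace G] [IsTopologicalGroup G] [CompactSpace G]
  [T2Space G] [SecondCountableTopology G] [MeasurableSpace G] [BorelSpace G]
  (μ : Measure G) [μ.IsHaarMeasure]

/-- finitely many eigenvalues close to the top and density of the group give a gap -/
theorem gap_of_bounded {m : ℕ} (a : Fin m → G)
    (hd : Dense ((Subgroup.closure (Set.range a) : Subgroup G) : Set G)) {c : ℝ}
    (hc : c < 2 * (m : ℝ)) (n : ℕ) (g : Fin n → Lp ℂ 2 μ)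
    (hg : ∀ f : Lp ℂ 2 μ, (∀ i, inner ℂ (g i) f = 0) →
      (inner ℂ f (D μ a f)).re ≤ c * ‖f‖ ^ 2) : OGap μ a := by
  by_contra hcon
  unfold OGap at hcon
  push Not at hcon
  have h1 : ∀ k : ℕ, ∃ F : Lp ℂ 2 μ, ‖F‖ = 1 ∧ inner ℂ (one μ) F = 0 ∧
      2 * (m : ℝ) - 1 / ((k : ℝ) + 1) < (inner ℂ F (D μ a F)).re := by
    intro k
    obtain ⟨F, hF0, hF⟩ := hcon (1 / ((k : ℝ) + 1)) (by positivity)
    have hFn : F ≠ 0 := by
      rintro rfl
      simp at hF
    have hFp : 0 < ‖F‖ := norm_pos_iff.2 hFn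
    refine ⟨((‖F‖⁻¹ : ℝ) : ℂ) • F, ?_, ?_, ?_⟩
    · rw [norm_smul, Complex.norm_real, norm_inv, norm_norm, inv_mul_cancel₀ hFp.ne']
    · rw [inner_smul_right, hF0, mul_zero]
    · rw [map_smul, inner_smul_left, inner_smul_right, Complex.conj_ofReal, ← mul_assoc,
        ← Complex.ofReal_mul, Complex.re_ofReal_mul]
      have h2 : 0 < ‖F‖⁻¹ * ‖F‖⁻¹ := by positivity
      have h3 := mul_lt_mul_of_pos_left hF h2
      have h4 : ‖F‖⁻¹ * ‖F‖⁻¹ * ((2 * (m : ℝ) - 1 / ((k : ℝ) + 1)) * ‖F‖ ^ 2) =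
        2 * (m : ℝ) - 1 / ((k : ℝ) + 1) := by
        field_simp
      linarith
  choose F hFn hF0 hFf using h1
  obtain ⟨F0, hw⟩ := exists_weak_limit (hyperfilter ℕ) F fun k => (hFn k).le
  have hV : ((hyperfilter ℕ : Ultrafilter ℕ) : Filter ℕ) ≤ atTop := by
    rw [← Nat.cofinite_eq_atTop]
    exact hyperfilter_le_cofinite
  have hlim : Tendsto (fun k : ℕ => 1 / ((k : ℝ) + 1)) (hyperfilter ℕ : Filter ℕ) (𝓝 0) :=
    tendsto_one_div_add_atTop_nhds_zero_nat.mono_left hV
  -- almost invariance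
  have hinv : ∀ j, Tendsto (fun k => U μ (a j) (F k) - F k) (hyperfilter ℕ : Filter ℕ) (𝓝 0) := by
    intro j
    rw [tendsto_zero_iff_norm_tendsto_zero]
    have h2 : Tendsto (fun k => ‖U μ (a j) (F k) - F k‖ ^ 2) (hyperfilter ℕ : Filter ℕ) (𝓝 0) := by
      refine squeeze_zero (fun k => by positivity) (fun k => ?_) hlim
      have h3 := gap_identity μ a (F k)
      have h4 : ‖U μ (a j) (F k) - F k‖ ^ 2 ≤ ∑ j, ‖U μ (a j) (F k) - F k‖ ^ 2 :=
        Finset.single_le_sum (f := fun j => ‖U μ (a j) (F k) - F k‖ ^ 2)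
          (fun i _ => by positivity) (Finset.mem_univ j)
      rw [hFn k] at h3
      have := hFf k
      linarith
    have h3 := (Real.continuous_sqrt.tendsto _).comp h2
    simp only [Real.sqrt_zero] at h3
    refine h3.congr fun k => ?_
    simp only [Function.comp]
    exact Real.sqrt_sq (norm_nonneg _)
  have hfix : ∀ j, U μ (a j) F0 = F0 := by
    intro j
    refine ext_inner_right (𝕜 := ℂ) (E := Lp ℂ 2 μ) (x := U μ (a j) F0) (y := F0)
      fun (h : Lp ℂ 2 μ) => ?_
    rw [U_adj]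
    have e1 := hw (U μ (a j)⁻¹ h)
    have e2 := hw h
    have e3 : Tendsto (fun k => inner ℂ (U μ (a j) (F k) - F k) h) (hyperfilter ℕ : Filter ℕ)
        (𝓝 0) := by
      have e6 : Tendsto (fun k => inner ℂ (U μ (a j) (F k) - F k) h) (hyperfilter ℕ : Filter ℕ)
          (𝓝 (inner ℂ (0 : Lp ℂ 2 μ) h)) := (hinv j).inner (𝕜 := ℂ) tendsto_const_nhds
      rw [inner_zero_left] at e6
      exact e6
    have e4 := e2.add e3
    rw [add_zero] at e4
    refine tendsto_nhds_unique e1 (e4.congr fun k => ?_)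
    have e5 : inner ℂ (U μ (a j) (F k) - F k) h =
        inner ℂ (U μ (a j) (F k)) h - inner ℂ (F k) h := inner_sub_left _ _ _
    rw [e5, add_sub_cancel, U_adj]
  have hfixall : ∀ x, U μ x F0 = F0 := by
    let S : Subgroup G :=
      { carrier := {x | U μ x F0 = F0}
        mul_mem' := by
          intro x y hx hy
          simp only [mem_setOf_eq] at *
          rw [← U_mul, hx, hy]
        one_mem' := U_one μ F0
        inv_mem' := by
          intro x hx
          simp only [mem_setOf_eq] at *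
          conv_lhs => rw [← hx]
          rw [U_mul, mul_inv_cancel, U_one] }
    have hSc : IsClosed (S : Set G) := isClosed_eq (U_cont μ F0) continuous_const
    have hle : Subgroup.closure (Set.range a) ≤ S := by
      rw [Subgroup.closure_le]
      rintro _ ⟨j, rfl⟩
      exact hfix j
    have hall : (S : Set G) = univ := by
      rw [← hSc.closure_eq]
      exact (hd.mono hle).closure_eq
    intro x
    have : x ∈ (S : Set G) := by rw [hall]; trivial
    exact this
  have hF00 : F0 = 0 := by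
    refine invariant_zero μ F0 hfixall ?_
    have e1 := hw (one μ)
    have e2 : inner ℂ F0 (one μ) = 0 := by
      refine tendsto_nhds_unique e1 (tendsto_const_nhds.congr fun k => ?_)
      rw [← inner_conj_symm, hF0 k, map_zero]
    rw [← inner_conj_symm, e2, map_zero]
  have hw0 : ∀ h, Tendsto (fun k => inner ℂ (F k) h) (hyperfilter ℕ : Filter ℕ) (𝓝 0) := by
    intro h
    have := hw h
    rwa [hF00, inner_zero_left] at this
  have hA : Tendsto (fun k => (inner ℂ (F k) (D μ a (F k))).re) (hyperfilter ℕ : Filter ℕ)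
      (𝓝 (2 * (m : ℝ))) := by
    have e1 : Tendsto (fun k : ℕ => 2 * (m : ℝ) - 1 / ((k : ℝ) + 1)) (hyperfilter ℕ : Filter ℕ)
        (𝓝 (2 * (m : ℝ))) := by
      have := hlim.const_sub (2 * (m : ℝ))
      simpa using this
    refine tendsto_of_tendsto_of_tendsto_of_le_of_le e1 tendsto_const_nhds
      (fun k => (hFf k).le) (fun k => ?_)
    have h3 := gap_identity μ a (F k)
    have h4 : 0 ≤ ∑ j, ‖U μ (a j) (F k) - F k‖ ^ 2 := Finset.sum_nonneg fun i _ => by positivity
    rw [hFn k] at h3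
    simp only
    linarith
  exact absurd (form_off (hyperfilter ℕ) F hFn hw0 hA n g hg) (not_le.2 hc)

/-- the form of a longer tuple -/
theorem form_long {m m' : ℕ} (h : m ≤ m') (a : Fin m' → G) (F : Lp ℂ 2 μ) :
    (inner ℂ F (D μ a F)).re ≤
      (inner ℂ F (D μ (fun i : Fin m => a (Fin.castLE h i)) F)).re
        + 2 * ((m' : ℝ) - (m : ℝ)) * ‖F‖ ^ 2 := by
  obtain ⟨d, rfl⟩ := Nat.exists_eq_add_of_le h
  have h1 := gap_identity μ a F
  have h2 := gap_identity μ (fun i : Fin m => a (Fin.castLE h i)) F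
  rw [Fin.sum_univ_add] at h1
  have h3 : ∑ j : Fin m, ‖U μ (a (Fin.castAdd d j)) F - F‖ ^ 2 =
    ∑ j : Fin m, ‖U μ (a (Fin.castLE h j)) F - F‖ ^ 2 := rfl
  have h4 : 0 ≤ ∑ j : Fin d, ‖U μ (a (Fin.natAdd m j)) F - F‖ ^ 2 :=
    Finset.sum_nonneg fun i _ => by positivity
  rw [h3] at h1
  push_cast at h1 h2 ⊢
  linarith

variable [ConnectedSpace G]

theorem main_gap (m m' : ℕ) (hm : 2 ≤ m) (hmm : m ≤ m') (hm' : 3 ≤ m') (hQ : Q1 μ m) :
    ∀ᵐ a ∂(Measure.pi fun _ : Fin m' => μ), HasGap μ a := by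
  obtain ⟨n, rfl⟩ : ∃ n, m = n + 2 := ⟨m - 2, by omega⟩
  obtain ⟨k, rfl⟩ : ∃ k, m' = k + 3 := ⟨m' - 3, by omega⟩
  set s : ℝ := 2 * Real.sqrt (2 * ((n + 2 : ℕ) : ℝ) - 1) with hs
  have hs1 : s < 2 * ((n + 2 : ℕ) : ℝ) := by
    have h1 : Real.sqrt (2 * ((n + 2 : ℕ) : ℝ) - 1) < ((n + 2 : ℕ) : ℝ) := by
      rw [Real.sqrt_lt' (by positivity)]
      push_cast
      have : (0 : ℝ) ≤ n := by positivity
      nlinarith
    rw [hs]
    linarith
  set ε : ℝ := (2 * ((n + 2 : ℕ) : ℝ) - s) / 2 with hε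
  have hε0 : 0 < ε := by rw [hε]; linarith
  have hdl := dense_locally μ n hQ ε hε0
  obtain ⟨a0, ⟨N, hN⟩⟩ := hdl.nonempty
  obtain ⟨V, hVsub, hVo, ha0⟩ := mem_nhds_iff.1 hN
  set V' : Set (Fin (k + 3) → G) := {a | (fun i : Fin (n + 2) => a (Fin.castLE hmm i)) ∈ V} with hV'
  have hcont : Continuous fun a : Fin (k + 3) → G => fun i : Fin (n + 2) => a (Fin.castLE hmm i) :=
    continuous_pi fun i => continuous_apply _
  have hV'o : IsOpen V' := hVo.preimage hcont
  have hV'ne : V'.Nonempty := by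
    refine ⟨fun i => if h : i.1 < n + 2 then a0 ⟨i.1, h⟩ else 1, ?_⟩
    change (fun i : Fin (n + 2) => _) ∈ V
    convert ha0 using 1
    funext i
    simp
  have hgap : ∀ᵐ a ∂(Measure.pi fun _ : Fin (k + 3) => μ), a ∈ V' → OGap μ a := by
    filter_upwards [ae_dense' μ (k + 1)] with a hd haV
    have h1 : BoundedByN μ (fun i : Fin (n + 2) => a (Fin.castLE hmm i)) (s + ε) N := hVsub haV
    obtain ⟨n1, g1, hg1⟩ := (boundedBy_iff μ _ _).1 h1.boundedBy
    refine gap_of_bounded μ a hd
      (c := (s + ε) + 2 * (((k + 3 : ℕ) : ℝ) - ((n + 2 : ℕ) : ℝ))) ?_ n1 g1 ?_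
    · rw [hε]; linarith
    · intro f hf
      have h2 := (abs_le.1 (hg1 f hf)).2
      have h3 := form_long μ hmm a f
      have h4 : ((s + ε) + 2 * (((k + 3 : ℕ) : ℝ) - ((n + 2 : ℕ) : ℝ))) * ‖f‖ ^ 2 =
        (s + ε) * ‖f‖ ^ 2 + 2 * (((k + 3 : ℕ) : ℝ) - ((n + 2 : ℕ) : ℝ)) * ‖f‖ ^ 2 := by ring
      linarith
  have h01 := zero_one μ k {a | OGap μ a} (measurableSet_oGap μ (k + 3)) (by
    intro i j hij a
    simp only [mem_setOf_eq]
    rw [oGap_iff_kGap, oGap_iff_kGap, kGap_mul μ a hij])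
  rcases eventuallyConst_set.1 h01 with h1 | h1
  · filter_upwards [h1] with a ha
    exact (hasGap_iff μ a).2 ha
  · exfalso
    have h2 : (Measure.pi fun _ : Fin (k + 3) => μ) V' = 0 := by
      have h3 : ∀ᵐ a ∂(Measure.pi fun _ : Fin (k + 3) => μ), a ∉ V' := by
        filter_upwards [hgap, h1] with a h4 h5 h6
        exact h5 (h4 h6)
      have := ae_iff.1 h3
      simpa using this
    exact (hV'o.measure_pos _ hV'ne).ne' h2

end

end Run7.h189.AR
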