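import Pool.Agent.R970.WM.LGb
import Pool.Agent.R970.WM.LP
import Pool.Agent.R970.WM.LD
import Pool.Agent.R970.WM.LI
import Pool.Agent.R970.WM.LS
import Pool.Agent.R970.WM.NE
import Pool.Agent.N255.GE.PWgen

/-! Almost every tuple of at least two elements of a compact connected group generates a dense
subgroup. -/

open MeasureTheory Set Filter Topology

namespace Run7.h189.AR

theorem lgF : R970.WM.Stm.lg :=
  R970.WM.lg (R970.WM.lgPair R970.WM.lieSub (R970.WM.lieGen R970.WM.lieSub) R970.WM.lin)

section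
variable (G : Type) [Group G] [TopologicalSpace G] [IsTopologicalGroup G] [CompactSpace G]
  [ConnectedSpace G] [T2Space G] [SecondCountableTopology G] [MeasurableSpace G] [BorelSpace G]
  (ν : Measure G) [IsProbabilityMeasure ν] [ν.IsHaarMeasure]

theorem ae_pair_dense :
    ∀ᵐ p ∂(ν.prod ν), Dense ((Subgroup.closure {p.1, p.2} : Subgroup G) : Set G) := by
  obtain ⟨N, e, R, hec, hon, hRc, he, hd⟩ := Pool.Agent.N255.GE.pwGen G ν
  have hall : ∀ᵐ p ∂(ν.prod ν), ∀ k : ℕ, ∀ v : EuclideanSpace ℂ (Fin (N k)),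
      R k p.1 v = v → R k p.2 v = v → ∀ a : G, R k a v = v := by
    rw [ae_all_iff]
    intro k
    exact lgF G ν (EuclideanSpace ℂ (Fin (N k))) (R k) (hRc k)
  filter_upwards [hall] with p hp
  set K : Subgroup G := Subgroup.closure {p.1, p.2} with hK
  set H : Subgroup G := K.topologicalClosure with hH
  by_contra hnd
  have hne : ∃ x, x ∉ H := by
    by_contra hcon
    push Not at hcon
    apply hnd
    intro x
    have := hcon x
    rw [hH] at this
    exact this
  obtain ⟨x, hx⟩ := hne
  have hHc : IsClosed (H : Set G) := K.isClosed_topologicalClosure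
  -- a small neighbourhood
  have hO : IsOpen {g : G | x * g ∉ H} := by
    have : {g : G | x * g ∉ H} = (fun g => x * g) ⁻¹' ((H : Set G)ᶜ) := rfl
    rw [this]
    exact hHc.isOpen_compl.preimage (continuous_const.mul continuous_id)
  have h1O : (1 : G) ∈ {g : G | x * g ∉ H} := by simpa using hx
  obtain ⟨V, hVn, hVV⟩ : ∃ V ∈ 𝓝 (1 : G), ∀ v ∈ V, ∀ w ∈ V, x * (v * w⁻¹) ∉ H := by
    have hc : Tendsto (fun q : G × G => q.1 * q.2⁻¹) (𝓝 1 ×ˢ 𝓝 1) (𝓝 1) := by
      have : Continuous (fun q : G × G => q.1 * q.2⁻¹) := by fun_prop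
      have h := this.tendsto (1, 1)
      rw [nhds_prod_eq] at h
      simpa using h
    have h2 := hc (hO.mem_nhds h1O)
    rw [mem_map, mem_prod_same_iff] at h2
    obtain ⟨V, hV, hV2⟩ := h2
    refine ⟨V, hV, fun v hv w hw => ?_⟩
    exact hV2 (mk_mem_prod hv hw)
  obtain ⟨V', hV'V, hV'o, h1V'⟩ := mem_nhds_iff.1 hVn
  set A : Set G := ⋃ h ∈ H, (fun y => h * y) '' V' with hA
  have hAo : IsOpen A := by
    refine isOpen_biUnion fun h _ => ?_
    exact (isOpenMap_mul_left h) _ hV'o
  have hAinv : ∀ h ∈ H, ∀ y, h * y ∈ A ↔ y ∈ A := by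
    have aux : ∀ h ∈ H, ∀ y, y ∈ A → h * y ∈ A := by
      intro h hh y hy
      simp only [hA, mem_iUnion, mem_image, exists_prop] at hy ⊢
      obtain ⟨h', hh', z, hz, rfl⟩ := hy
      exact ⟨h * h', H.mul_mem hh hh', z, hz, by rw [mul_assoc]⟩
    intro h hh y
    refine ⟨fun hy => ?_, aux h hh y⟩
    have := aux h⁻¹ (H.inv_mem hh) _ hy
    simpa using this
  have h1A : (1 : G) ∈ A := by
    simp only [hA, mem_iUnion, mem_image, exists_prop]
    exact ⟨1, H.one_mem, 1, h1V', by simp⟩
  have hxA : ∀ v ∈ V', x * v ∉ A := by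
    intro v hv hmem
    simp only [hA, mem_iUnion, mem_image, exists_prop] at hmem
    obtain ⟨h, hh, w, hw, heq⟩ := hmem
    have := hVV v (hV'V hv) w (hV'V hw)
    apply this
    rw [← mul_assoc, ← heq, mul_assoc, mul_inv_cancel, mul_one]
    exact hh
  set u : G → ℂ := A.indicator (fun _ => (1 : ℂ)) with hu
  have hum : Measurable u := measurable_const.indicator hAo.measurableSet
  have huC : ∀ y, ‖u y‖ ≤ 1 := by
    intro y
    by_cases hy : y ∈ A <;> simp [hu, hy]
  have hui : ∀ h ∈ H, ∀ y, u (h * y) = u y := by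
    intro h hh y
    by_cases hy : y ∈ A
    · have h1 := (hAinv h hh y).2 hy
      simp [hu, hy, h1]
    · have h1 : h * y ∉ A := fun h2 => hy ((hAinv h hh y).1 h2)
      simp [hu, hy, h1]
  have hKH : ∀ g ∈ K, g ∈ H := fun g hg => K.le_topologicalClosure hg
  have hp1 : p.1 ∈ H := hKH _ (Subgroup.subset_closure (by simp))
  have hp2 : p.2 ∈ H := hKH _ (Subgroup.subset_closure (by simp))
  have hfix0 : ∀ k, ∀ h ∈ H, R k h (R970.WM.NE.four G ν (e k) u) = R970.WM.NE.four G ν (e k) u := by
    intro k h hh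
    have := R970.WM.NE.four_trans G ν (e k) (R k) (hec k) (he k) 1 h u u hum 1 huC
      (Eventually.of_forall fun y => by rw [one_mul, hui h hh])
    rw [one_smul] at this
    exact this.symm
  have hfix : ∀ k a, R k a (R970.WM.NE.four G ν (e k) u) = R970.WM.NE.four G ν (e k) u := by
    intro k
    exact hp k _ (hfix0 k _ hp1) (hfix0 k _ hp2)
  have hconst := R970.WM.NE.constOf G ν N e R hec hon he hd u hum 1 huC hfix
  set z : ℂ := ∫ y, u y ∂ν with hz
  have hApos : 0 < ν A := hAo.measure_pos ν ⟨1, h1A⟩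
  have hBo : IsOpen ((fun y => x * y) '' V') := (isOpenMap_mul_left x) _ hV'o
  have hBpos : 0 < ν ((fun y => x * y) '' V') := hBo.measure_pos ν ⟨x * 1, 1, h1V', rfl⟩
  have hz1 : z = 1 := by
    by_contra hne1
    have : ν A = 0 := by
      refine measure_mono_null ?_ (ae_iff.1 hconst)
      intro y hy
      simp only [mem_setOf_eq]
      intro h
      apply hne1
      rw [← h]
      simp [hu, hy]
    exact hApos.ne' this
  have hz0 : z = 0 := by
    by_contra hne1
    have : ν ((fun y => x * y) '' V') = 0 := by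
      refine measure_mono_null ?_ (ae_iff.1 hconst)
      rintro y ⟨v, hv, rfl⟩
      simp only [mem_setOf_eq]
      intro h
      apply hne1
      rw [← h]
      have := hxA v hv
      simp [hu, this]
    exact hBpos.ne' this
  rw [hz1] at hz0
  exact one_ne_zero hz0

/-- almost every tuple of length at least two generates a dense subgroup -/
theorem ae_dense (n : ℕ) :
    ∀ᵐ a ∂(Measure.pi (fun _ : Fin (n + 2) => ν)),
      Dense ((Subgroup.closure (Set.range a) : Subgroup G) : Set G) := by
  have h1 := measurePreserving_piFinSuccAbove (fun _ : Fin (n + 2) => ν) 0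
  have h2 : MeasurePreserving (Function.eval 0) (Measure.pi (fun _ : Fin (n + 1) => ν)) ν :=
    measurePreserving_eval (fun _ : Fin (n + 1) => ν) 0
  have h3 := (MeasurePreserving.id ν).prod h2
  have h4 := h3.comp h1
  have h5 := h4.quasiMeasurePreserving.ae (ae_pair_dense G ν)
  filter_upwards [h5] with a ha
  refine ha.mono ?_
  refine Subgroup.closure_mono ?_
  intro y hy
  simp only [Function.comp, mem_insert_iff, mem_singleton_iff] at hy
  rcases hy with rfl | rfl
  · exact ⟨_, rfl⟩
  · exact ⟨_, rfl⟩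

end

end Run7.h189.AR
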