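import Mathlib

/-! Quadratic forms of symmetric operators: finitely many directions above a level. -/

open Set Filter Topology

namespace Run7.h189.AR

section
variable {L : Type*} [NormedAddCommGroup L] [InnerProductSpace ℂ L]

/-- the form of `T` is strictly above `c` on an `n`-dimensional space -/
def Pos (T : L →L[ℂ] L) (c : ℝ) (n : ℕ) : Prop :=
  ∃ v : Fin n → L, ∀ x : Fin n → ℂ, x ≠ 0 →
    c * ‖∑ i, x i • v i‖ ^ 2 < (inner ℂ (∑ i, x i • v i) (T (∑ i, x i • v i))).re

/-- the form of `T` is bounded by `c` in absolute value, up to finitely many dimensions -/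
def FinBdd (T : L →L[ℂ] L) (c : ℝ) : Prop :=
  ∃ (n : ℕ) (g : Fin n → L), ∀ F : L, (∀ i, inner ℂ (g i) F = 0) →
    |(inner ℂ F (T F)).re| ≤ c * ‖F‖ ^ 2

theorem Pos.zero (T : L →L[ℂ] L) (c : ℝ) : Pos T c 0 :=
  ⟨Fin.elim0, fun x hx => absurd (Subsingleton.elim x 0) hx⟩

/-- extension of a strictly positive system -/
theorem pos_snoc {T : L →L[ℂ] L} (hT : ∀ x y, inner ℂ (T x) y = inner ℂ x (T y)) {c : ℝ}
    {k : ℕ} {v : Fin k → L}
    (hv : ∀ x : Fin k → ℂ, x ≠ 0 →
      c * ‖∑ i, x i • v i‖ ^ 2 < (inner ℂ (∑ i, x i • v i) (T (∑ i, x i • v i))).re)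
    (F : L) (hF : ∀ i, inner ℂ (T (v i) - (c : ℂ) • v i) F = 0)
    (hcon : c * ‖F‖ ^ 2 < (inner ℂ F (T F)).re) : Pos T c (k + 1) := by
  refine ⟨Fin.snoc v F, ?_⟩
  intro x hx
  have hsum : ∑ i, x i • (Fin.snoc v F : Fin (k + 1) → L) i =
      (∑ i : Fin k, x i.castSucc • v i) + x (Fin.last k) • F := by
    rw [Fin.sum_univ_castSucc]
    simp
  rw [hsum]
  set u := ∑ i : Fin k, x i.castSucc • v i with hu
  set y := x (Fin.last k) with hy
  -- cross terms
  have hcross : inner ℂ (T u) F = (c : ℂ) * inner ℂ u F := by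
    have h1 : inner ℂ (T u - (c : ℂ) • u) F = 0 := by
      have h2 : T u - (c : ℂ) • u = ∑ i : Fin k, x i.castSucc • (T (v i) - (c : ℂ) • v i) := by
        rw [hu, map_sum, Finset.smul_sum, ← Finset.sum_sub_distrib]
        refine Finset.sum_congr rfl fun i _ => ?_
        rw [map_smul, smul_sub, smul_comm]
      rw [h2, sum_inner]
      refine Finset.sum_eq_zero fun i _ => ?_
      rw [inner_smul_left, hF i, mul_zero]
    rw [inner_sub_left, sub_eq_zero, inner_smul_left] at h1
    simpa using h1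
  have hcross2 : inner ℂ u (T F) = (c : ℂ) * inner ℂ u F := by rw [← hT, hcross]
  have hcross3 : inner ℂ F (T u) = (c : ℂ) * inner ℂ F u := by
    rw [← inner_conj_symm, hcross, map_mul, inner_conj_symm]
    simp
  have hq : (inner ℂ (u + y • F) (T (u + y • F))).re - c * ‖u + y • F‖ ^ 2 =
      ((inner ℂ u (T u)).re - c * ‖u‖ ^ 2) + ‖y‖ ^ 2 * ((inner ℂ F (T F)).re - c * ‖F‖ ^ 2) := by
    have e1 : ∀ z : L, ‖z‖ ^ 2 = (inner ℂ z z).re := by
      intro z
      have := inner_self_eq_norm_sq (𝕜 := ℂ) z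
      rw [← this]
      rfl
    rw [e1 (u + y • F), e1 u, e1 F]
    have e2 : inner ℂ (u + y • F) (T (u + y • F)) =
        inner ℂ u (T u) + y * ((c : ℂ) * inner ℂ u F) + (starRingEnd ℂ) y * ((c : ℂ) * inner ℂ F u)
          + (starRingEnd ℂ) y * y * inner ℂ F (T F) := by
      rw [map_add, map_smul, inner_add_left, inner_add_right, inner_add_right, inner_smul_left,
        inner_smul_left, inner_smul_right, inner_smul_right, hcross2, hcross3]
      ring
    have e3 : inner ℂ (u + y • F) (u + y • F) =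
        inner ℂ u u + y * inner ℂ u F + (starRingEnd ℂ) y * inner ℂ F u
          + (starRingEnd ℂ) y * y * inner ℂ F F := by
      rw [inner_add_left, inner_add_right, inner_add_right, inner_smul_left,
        inner_smul_left, inner_smul_right, inner_smul_right]
      ring
    have e4 : (starRingEnd ℂ) y * y = ((‖y‖ ^ 2 : ℝ) : ℂ) := by
      rw [mul_comm, Complex.mul_conj, Complex.normSq_eq_norm_sq]
    rw [e2, e3, e4]
    have e5 : ∀ (r : ℝ) (z : ℂ), ((r : ℂ) * z).re = r * z.re := fun r z => by simp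
    have e6 : y * ((c : ℂ) * inner ℂ u F) = (c : ℂ) * (y * inner ℂ u F) := by ring
    have e7 : (starRingEnd ℂ) y * ((c : ℂ) * inner ℂ F u) =
      (c : ℂ) * ((starRingEnd ℂ) y * inner ℂ F u) := by ring
    rw [e6, e7]
    simp only [Complex.add_re, e5]
    ring
  have hmain : 0 < (inner ℂ (u + y • F) (T (u + y • F))).re - c * ‖u + y • F‖ ^ 2 := by
    rw [hq]
    by_cases hx0 : (fun i : Fin k => x i.castSucc) = 0
    · have hy0 : y ≠ 0 := by
        intro hy0
        apply hx
        funext i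
        refine Fin.lastCases ?_ (fun i => ?_) i
        · exact hy0
        · exact congrFun hx0 i
      have hu0 : u = 0 := by
        rw [hu]
        refine Finset.sum_eq_zero fun i _ => ?_
        have := congrFun hx0 i
        simp only [Pi.zero_apply] at this
        rw [this, zero_smul]
      rw [hu0]
      simp only [map_zero, inner_zero_left, Complex.zero_re, norm_zero]
      have : 0 < ‖y‖ ^ 2 := by positivity
      have h3 : 0 < (inner ℂ F (T F)).re - c * ‖F‖ ^ 2 := by linarith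
      have := mul_pos this h3
      nlinarith
    · have h1 := hv _ hx0
      have h3 : 0 < (inner ℂ F (T F)).re - c * ‖F‖ ^ 2 := by linarith
      have h4 : 0 ≤ ‖y‖ ^ 2 * ((inner ℂ F (T F)).re - c * ‖F‖ ^ 2) := by positivity
      have h5 : 0 < (inner ℂ u (T u)).re - c * ‖u‖ ^ 2 := by
        rw [hu]
        linarith
      linarith
  linarith

/-- one sided estimate off the `T - c` image of a maximal strictly positive system -/
theorem exists_bound {T : L →L[ℂ] L} (hT : ∀ x y, inner ℂ (T x) y = inner ℂ x (T y)) {c : ℝ}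
    (h : ¬ ∀ n, Pos T c n) :
    ∃ (n : ℕ) (g : Fin n → L), ∀ F : L, (∀ i, inner ℂ (g i) F = 0) →
      (inner ℂ F (T F)).re ≤ c * ‖F‖ ^ 2 := by
  classical
  have h' : ∃ n, ¬ Pos T c n := by
    by_contra hc
    push Not at hc
    exact h hc
  set N := Nat.find h' with hN
  have hNs : ¬ Pos T c N := Nat.find_spec h'
  have hN0 : N ≠ 0 := fun h0 => hNs (h0 ▸ Pos.zero T c)
  obtain ⟨k, hk⟩ := Nat.exists_eq_succ_of_ne_zero hN0
  have hkp : Pos T c k := by
    by_contra hc
    exact Nat.find_min h' (m := k) (by omega) hc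
  obtain ⟨v, hv⟩ := hkp
  refine ⟨k, fun i => T (v i) - (c : ℂ) • v i, ?_⟩
  intro F hF
  by_contra hcon
  push Not at hcon
  apply hNs
  rw [hk]
  exact pos_snoc hT hv F hF hcon

/-- a space of dimension `n + 1` contains a nonzero vector orthogonal to `n` given ones -/
theorem exists_orth {n : ℕ} (v : Fin (n + 1) → L) (g : Fin n → L) :
    ∃ x : Fin (n + 1) → ℂ, x ≠ 0 ∧ ∀ i, inner ℂ (g i) (∑ j, x j • v j) = 0 := by
  let f : (Fin (n + 1) → ℂ) →ₗ[ℂ] (Fin n → ℂ) :=
    { toFun := fun x i => inner ℂ (g i) (∑ j, x j • v j)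
      map_add' := by
        intro x y
        funext i
        simp only [Pi.add_apply, add_smul, Finset.sum_add_distrib, inner_add_right]
      map_smul' := by
        intro r x
        funext i
        simp only [Pi.smul_apply, smul_eq_mul, RingHom.id_apply, mul_smul]
        rw [← Finset.smul_sum, inner_smul_right] }
  have hker : LinearMap.ker f ≠ ⊥ := by
    apply LinearMap.ker_ne_bot_of_finrank_lt
    simp
  obtain ⟨x, hx, hx0⟩ := Submodule.exists_mem_ne_zero_of_ne_bot hker
  refine ⟨x, hx0, fun i => ?_⟩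
  have := congrFun (LinearMap.mem_ker.1 hx) i
  exact this

theorem not_finBdd_iff {T : L →L[ℂ] L} (hT : ∀ x y, inner ℂ (T x) y = inner ℂ x (T y)) {c : ℝ} :
    ¬ FinBdd T c ↔ (∀ n, Pos T c n) ∨ (∀ n, Pos (-T) c n) := by
  constructor
  · intro h
    by_contra hcon
    push Not at hcon
    obtain ⟨h1, h2⟩ := hcon
    have h1' : ¬ ∀ n, Pos T c n := by push Not; exact h1
    have h2' : ¬ ∀ n, Pos (-T) c n := by push Not; exact h2
    obtain ⟨n1, g1, hg1⟩ := exists_bound hT h1'
    have hT' : ∀ x y, inner ℂ ((-T) x) y = inner ℂ x ((-T) y) := by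
      intro x y
      simp only [ContinuousLinearMap.neg_apply, inner_neg_left, inner_neg_right, hT]
    obtain ⟨n2, g2, hg2⟩ := exists_bound hT' h2'
    apply h
    refine ⟨n1 + n2, Fin.append g1 g2, ?_⟩
    intro F hF
    have a1 := hg1 F (fun i => by simpa using hF (Fin.castAdd n2 i))
    have a2 := hg2 F (fun i => by simpa using hF (Fin.natAdd n1 i))
    rw [abs_le]
    simp only [ContinuousLinearMap.neg_apply, inner_neg_right, Complex.neg_re] at a2
    constructor <;> linarith
  · rintro (h | h) ⟨n, g, hg⟩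
    · obtain ⟨v, hv⟩ := h (n + 1)
      obtain ⟨x, hx0, hx⟩ := exists_orth v g
      have h1 := hv x hx0
      have h2 := hg _ hx
      have h3 := (abs_le.1 h2).2
      linarith
    · obtain ⟨v, hv⟩ := h (n + 1)
      obtain ⟨x, hx0, hx⟩ := exists_orth v g
      have h1 := hv x hx0
      have h2 := hg _ hx
      have h3 := (abs_le.1 h2).1
      simp only [ContinuousLinearMap.neg_apply, inner_neg_right, Complex.neg_re] at h1
      linarith

theorem isOpen_pos {X : Type*} [TopologicalSpace X] (T : X → L →L[ℂ] L)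
    (hT : ∀ v, Continuous fun a => T a v) (c : ℝ) (n : ℕ) : IsOpen {a | Pos (T a) c n} := by
  have : {a | Pos (T a) c n} = ⋃ v : Fin n → L, {a | ∀ x : Fin n → ℂ, x ≠ 0 →
    c * ‖∑ i, x i • v i‖ ^ 2 < (inner ℂ (∑ i, x i • v i) (T a (∑ i, x i • v i))).re} := by
    ext a
    simp [Pos]
  rw [this]
  refine isOpen_iUnion fun v => ?_
  -- reduce to the unit sphere
  have hS : {a | ∀ x : Fin n → ℂ, x ≠ 0 →
      c * ‖∑ i, x i • v i‖ ^ 2 < (inner ℂ (∑ i, x i • v i) (T a (∑ i, x i • v i))).re} =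
    {a | ∀ x ∈ Metric.sphere (0 : Fin n → ℂ) 1,
      c * ‖∑ i, x i • v i‖ ^ 2 < (inner ℂ (∑ i, x i • v i) (T a (∑ i, x i • v i))).re} := by
    ext a
    simp only [mem_setOf_eq]
    constructor
    · intro h x hx
      refine h x ?_
      rintro rfl
      simp at hx
    · intro h x hx
      have hn : 0 < ‖x‖ := norm_pos_iff.2 hx
      set r : ℂ := ((‖x‖⁻¹ : ℝ) : ℂ) with hr
      have h1 := h (r • x) (by
        rw [mem_sphere_zero_iff_norm, norm_smul, hr, Complex.norm_real, norm_inv, norm_norm,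
          inv_mul_cancel₀ hn.ne'])
      have h2 : ∑ i, (r • x) i • v i = r • ∑ i, x i • v i := by
        rw [Finset.smul_sum]
        refine Finset.sum_congr rfl fun i _ => ?_
        rw [Pi.smul_apply, smul_assoc]
      rw [h2, norm_smul, map_smul, inner_smul_left, inner_smul_right] at h1
      have h3 : (starRingEnd ℂ) r * (r * inner ℂ (∑ i, x i • v i) (T a (∑ i, x i • v i))) =
          (((‖x‖⁻¹) ^ 2 : ℝ) : ℂ) * inner ℂ (∑ i, x i • v i) (T a (∑ i, x i • v i)) := by
        rw [hr, Complex.conj_ofReal]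
        push_cast
        ring
      rw [h3] at h1
      have h4 : ((((‖x‖⁻¹) ^ 2 : ℝ) : ℂ) * inner ℂ (∑ i, x i • v i) (T a (∑ i, x i • v i))).re =
        (‖x‖⁻¹) ^ 2 * (inner ℂ (∑ i, x i • v i) (T a (∑ i, x i • v i))).re :=
        Complex.re_ofReal_mul _ _
      rw [h4] at h1
      have h5 : ‖r‖ = ‖x‖⁻¹ := by rw [hr, Complex.norm_real, norm_inv, norm_norm]
      rw [h5, mul_pow] at h1
      have h6 : (0:ℝ) < (‖x‖⁻¹) ^ 2 := by positivity
      have h7 : (‖x‖⁻¹) ^ 2 * (c * ‖∑ i, x i • v i‖ ^ 2) <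
        (‖x‖⁻¹) ^ 2 * (inner ℂ (∑ i, x i • v i) (T a (∑ i, x i • v i))).re := by
        calc _ = c * ((‖x‖⁻¹) ^ 2 * ‖∑ i, x i • v i‖ ^ 2) := by ring
          _ < _ := h1
      exact lt_of_mul_lt_mul_left h7 h6.le
  rw [hS]
  have hcont : Continuous fun q : X × (Fin n → ℂ) =>
      (inner ℂ (∑ i, q.2 i • v i) (T q.1 (∑ i, q.2 i • v i))).re - c * ‖∑ i, q.2 i • v i‖ ^ 2 := by
    have e1 : (fun q : X × (Fin n → ℂ) =>
      (inner ℂ (∑ i, q.2 i • v i) (T q.1 (∑ i, q.2 i • v i))).re - c * ‖∑ i, q.2 i • v i‖ ^ 2) =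
      fun q => (inner ℂ (∑ i, q.2 i • v i) (∑ i, q.2 i • T q.1 (v i))).re
        - c * ‖∑ i, q.2 i • v i‖ ^ 2 := by
      funext q
      rw [map_sum]
      simp only [map_smul]
    rw [e1]
    have e2 : Continuous fun q : X × (Fin n → ℂ) => ∑ i, q.2 i • v i := by fun_prop
    have e3 : Continuous fun q : X × (Fin n → ℂ) => ∑ i, q.2 i • T q.1 (v i) := by
      refine continuous_finsetSum _ fun i _ => ?_
      exact ((continuous_apply i).comp continuous_snd).smul ((hT (v i)).comp continuous_fst)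
    exact (Complex.continuous_re.comp (e2.inner e3)).sub (continuous_const.mul (e2.norm.pow 2))
  have hopen : IsOpen {q : X × (Fin n → ℂ) | 0 <
      (inner ℂ (∑ i, q.2 i • v i) (T q.1 (∑ i, q.2 i • v i))).re
        - c * ‖∑ i, q.2 i • v i‖ ^ 2} := isOpen_lt continuous_const hcont
  rw [isOpen_iff_mem_nhds]
  intro a ha
  have hK : IsCompact (Metric.sphere (0 : Fin n → ℂ) 1) := isCompact_sphere _ _
  obtain ⟨U, V, hU, hV, haU, hKV, hUV⟩ := generalized_tube_lemma (isCompact_singleton (x := a)) hK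
    hopen (by
      rintro ⟨a', x⟩ ⟨h1, h2⟩
      simp only [mem_singleton_iff] at h1
      subst h1
      have := ha x h2
      simp only [mem_setOf_eq]
      linarith)
  refine mem_of_superset (hU.mem_nhds (haU rfl)) ?_
  intro b hb x hx
  have := hUV (mk_mem_prod hb (hKV hx))
  simp only [mem_setOf_eq] at this
  linarith

end

end Run7.h189.AR
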