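import Pool.Agent.Run7.h189.AR.MainQ2

/-! The zero-one law for the category version. -/

open MeasureTheory Set Filter Topology

namespace Run7.h189.AR

section
variable {G : Type} [Group G] [TopologicalSpace G] [IsTopologicalGroup G]

theorem cont_lift {m : ℕ} (w : FreeGroup (Fin m)) :
    Continuous fun a : Fin m → G => FreeGroup.lift a w := by
  induction w using FreeGroup.induction_on with
  | C1 => simpa using continuous_const
  | of i => simpa using continuous_apply i
  | inv_of i h =>
    have h2 : Continuous fun a : Fin m → G => (a i)⁻¹ := (continuous_apply i).inv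
    simpa using h2
  | mul x y hx hy =>
    have h2 : Continuous fun a : Fin m → G => FreeGroup.lift a x * FreeGroup.lift a y := hx.mul hy
    simpa using h2

/-- homeomorphisms given by the moves -/
def homPerm {m : ℕ} (σ : Equiv.Perm (Fin m)) : (Fin m → G) ≃ₜ (Fin m → G) where
  toFun a := a ∘ σ
  invFun a := a ∘ σ.symm
  left_inv a := by funext i; simp
  right_inv a := by funext i; simp
  continuous_toFun := cont_perm σ
  continuous_invFun := cont_perm σ.symm

def homInv {m : ℕ} (i : Fin m) : (Fin m → G) ≃ₜ (Fin m → G) where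
  toFun a := Function.update a i (a i)⁻¹
  invFun a := Function.update a i (a i)⁻¹
  left_inv a := by simp
  right_inv a := by simp
  continuous_toFun := cont_inv i
  continuous_invFun := cont_inv i

def homMul {m : ℕ} (i j : Fin m) (hij : i ≠ j) : (Fin m → G) ≃ₜ (Fin m → G) where
  toFun a := Function.update a i (a j * a i)
  invFun a := Function.update a i ((a j)⁻¹ * a i)
  left_inv a := by simp [Function.update_of_ne hij.symm]
  right_inv a := by simp [Function.update_of_ne hij.symm]
  continuous_toFun := cont_mul i j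
  continuous_invFun :=
    continuous_id.update i ((continuous_apply j).inv.mul (continuous_apply i))

theorem isMeagre_iUnion' {X : Type*} [TopologicalSpace X] {ι : Sort*} [Countable ι]
    {s : ι → Set X} (h : ∀ i, IsMeagre (s i)) : IsMeagre (⋃ i, s i) := by
  unfold IsMeagre at *
  rw [compl_iUnion]
  exact (countable_iInter_mem).2 h

theorem isMeagre_hom {X : Type*} [TopologicalSpace X] (e : X ≃ₜ X) {s : Set X} (h : IsMeagre s) :
    IsMeagre (e ⁻¹' s) := IsMeagre.preimage_of_isOpenMap e.continuous e.isOpenMap h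

theorem star_meagre {m : ℕ} {B : Set (Fin m → G)} (hB : IsMeagre B) : IsMeagre (Star B) := by
  refine isMeagre_iUnion' fun k => ?_
  induction k with
  | zero => exact hB
  | succ k ih =>
    refine ih.union ((isMeagre_iUnion' fun σ => ?_).union
      ((isMeagre_iUnion' fun i => ?_).union (isMeagre_iUnion' fun i =>
        isMeagre_iUnion' fun j => isMeagre_iUnion' fun hij => ?_)))
    · exact isMeagre_hom (homPerm σ) ih
    · exact isMeagre_hom (homInv i) ih
    · exact isMeagre_hom (homMul i j hij) ih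

theorem star_open {m : ℕ} {B : Set (Fin m → G)} (hB : IsOpen B) : IsOpen (Star B) := by
  refine isOpen_iUnion fun k => ?_
  induction k with
  | zero => exact hB
  | succ k ih =>
    refine ih.union ((isOpen_iUnion fun σ => ?_).union
      ((isOpen_iUnion fun i => ?_).union (isOpen_iUnion fun i =>
        isOpen_iUnion fun j => isOpen_iUnion fun hij => ?_)))
    · exact ih.preimage (cont_perm σ)
    · exact ih.preimage (cont_inv i)
    · exact ih.preimage (cont_mul i j)

theorem star_mono {m : ℕ} {B C : Set (Fin m → G)} (h : B ⊆ C) : Star B ⊆ Star C := by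
  intro a ha
  obtain ⟨b, hab, hb⟩ := (mem_star B a).1 ha
  exact (mem_star C a).2 ⟨b, hab, h hb⟩

end

section
variable {G : Type} [Group G] [TopologicalSpace G] [IsTopologicalGroup G] [CompactSpace G]
  [T2Space G] [SecondCountableTopology G] [MeasurableSpace G] [BorelSpace G] [ConnectedSpace G]

theorem residual_dense (n : ℕ) : ∀ᶠ a : Fin (n + 2) → G in residual (Fin (n + 2) → G),
    Dense ((Subgroup.closure (Set.range a) : Subgroup G) : Set G) := by
  have hd : Dense {a : Fin (n + 2) → G |
      Dense ((Subgroup.closure (Set.range a) : Subgroup G) : Set G)} :=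
    Measure.dense_of_ae (ae_dense' (Measure.haarMeasure (⊤ : TopologicalSpace.PositiveCompacts G)) n)
  refine residual_of_dense_Gδ ?_ hd
  obtain ⟨b, hbc, hb0, hb⟩ := TopologicalSpace.exists_countable_basis G
  have : {a : Fin (n + 2) → G |
      Dense ((Subgroup.closure (Set.range a) : Subgroup G) : Set G)} =
      ⋂ V ∈ b, ⋃ w : FreeGroup (Fin (n + 2)), {a : Fin (n + 2) → G | FreeGroup.lift a w ∈ V} := by
    ext a
    simp only [mem_setOf_eq, mem_iInter, mem_iUnion]
    rw [hb.dense_iff]
    constructor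
    · intro h V hV
      have hne : V.Nonempty := by
        rw [nonempty_iff_ne_empty]
        rintro rfl
        exact hb0 hV
      obtain ⟨x, hxV, hx⟩ := h V hV hne
      rw [SetLike.mem_coe, ← FreeGroup.range_lift_eq_closure] at hx
      obtain ⟨w, rfl⟩ := hx
      exact ⟨w, hxV⟩
    · intro h V hV _
      obtain ⟨w, hw⟩ := h V hV
      refine ⟨FreeGroup.lift a w, hw, ?_⟩
      rw [SetLike.mem_coe, ← FreeGroup.range_lift_eq_closure]
      exact ⟨w, rfl⟩
  rw [this]
  refine IsGδ.biInter hbc fun V hV => ?_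
  refine IsOpen.isGδ (isOpen_iUnion fun w => ?_)
  exact (hb.isOpen hV).preimage (cont_lift w)

theorem star_open_dense (n : ℕ) {V : Set (Fin (n + 3) → G)} (hV : IsOpen V) (hne : V.Nonempty) :
    Dense (Star V) := by
  set μ := Measure.haarMeasure (⊤ : TopologicalSpace.PositiveCompacts G) with hμ
  have h1 : (Measure.pi fun _ : Fin (n + 3) => μ) V ≠ 0 := (hV.measure_pos _ hne).ne'
  have := star_conull μ n V hV.measurableSet h1
  exact Measure.dense_of_ae (p := fun a => a ∈ Star V) this

theorem star_residual (n : ℕ) {P V : Set (Fin (n + 3) → G)} (hV : IsOpen V) (hne : V.Nonempty)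
    (hP : IsMeagre (V \ P)) : ∀ᶠ a in residual (Fin (n + 3) → G), a ∈ Star P := by
  have h1 : ∀ᶠ a in residual (Fin (n + 3) → G), a ∈ Star V :=
    residual_of_dense_open (star_open hV) (star_open_dense n hV hne)
  have h2 := star_meagre hP
  filter_upwards [h1, h2] with a ha1 ha2
  obtain ⟨b, hab, hb⟩ := (mem_star V a).1 ha1
  refine (mem_star P a).2 ⟨b, hab, ?_⟩
  by_contra hbP
  exact ha2 ((mem_star _ a).2 ⟨b, hab, hb, hbP⟩)

theorem star_residual_infinite (n : ℕ) [Nontrivial G] {P V : Set (Fin (n + 3) → G)}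
    (hV : IsOpen V) (hne : V.Nonempty) (hP : IsMeagre (V \ P)) :
    ∀ᶠ a in residual (Fin (n + 3) → G), {b | NielsenEquiv a b ∧ b ∈ P}.Infinite := by
  haveI := noAtoms_pi (Measure.haarMeasure (⊤ : TopologicalSpace.PositiveCompacts G)) (n + 2)
  obtain ⟨b, hbc, hb0, hb⟩ := TopologicalSpace.exists_countable_basis (Fin (n + 3) → G)
  have h1 : ∀ᶠ a in residual (Fin (n + 3) → G), ∀ W ∈ b, (V ∩ W).Nonempty → a ∈ Star (P ∩ W) := by
    rw [eventually_countable_ball hbc]
    intro W hW
    by_cases h0 : (V ∩ W).Nonempty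
    · have := star_residual n (P := P ∩ W) (V := V ∩ W) (hV.inter (hb.isOpen hW)) h0
        (hP.mono (by
          rintro x ⟨⟨h1, h2⟩, h3⟩
          exact ⟨h1, fun h4 => h3 ⟨h4, h2⟩⟩))
      filter_upwards [this] with a ha
      exact fun _ => ha
    · exact Eventually.of_forall fun a h => absurd h h0
  filter_upwards [h1] with a ha
  intro hfin
  set F := {b | NielsenEquiv a b ∧ b ∈ P} with hF
  have hFc : IsClosed F := hfin.isClosed
  have hF0 : (Measure.pi fun _ : Fin (n + 3) =>
      Measure.haarMeasure (⊤ : TopologicalSpace.PositiveCompacts G)) F = 0 := hfin.measure_zero _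
  have hVF : (V \ F).Nonempty := by
    by_contra hcon
    rw [not_nonempty_iff_eq_empty, sdiff_eq_empty] at hcon
    exact (hV.measure_pos _ hne).ne' (measure_mono_null hcon hF0)
  obtain ⟨x, hxV, hxF⟩ := hVF
  obtain ⟨W, hW, hxW, hWF⟩ := hb.exists_subset_of_mem_open (show x ∈ Fᶜ from hxF)
    hFc.isOpen_compl
  obtain ⟨c, hac, hcB, hcW⟩ := (mem_star _ a).1 (ha W hW ⟨x, hxV, hxW⟩)
  exact hWF hcW ⟨hac, hcB⟩

/-- a non-meagre countable intersection of open sets is residual in some nonempty open set -/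
theorem nonmeagre_gdelta {X : Type*} [TopologicalSpace X] (O : ℕ → Set X) (hO : ∀ n, IsOpen (O n))
    (h : ¬ IsMeagre (⋂ n, O n)) :
    ∃ V : Set X, IsOpen V ∧ V.Nonempty ∧ IsMeagre (V \ ⋂ n, O n) := by
  refine ⟨interior (closure (⋂ n, O n)), isOpen_interior, ?_, ?_⟩
  · by_contra hne
    rw [not_nonempty_iff_eq_empty] at hne
    exact h (IsNowhereDense.isMeagre hne)
  · have : interior (closure (⋂ n, O n)) \ ⋂ n, O n ⊆ ⋃ n, frontier (O n) := by
      rintro x ⟨hx, hx2⟩
      simp only [mem_iInter, not_forall] at hx2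
      obtain ⟨n, hn⟩ := hx2
      refine mem_iUnion.2 ⟨n, ?_⟩
      rw [(hO n).frontier_eq]
      exact ⟨closure_mono (iInter_subset _ n) (interior_subset hx), hn⟩
    refine IsMeagre.mono this ?_
    refine isMeagre_iUnion' fun n => ?_
    refine IsNowhereDense.isMeagre ?_
    rw [IsNowhereDense, isClosed_frontier.closure_eq]
    rw [← frontier_compl]
    exact interior_frontier (hO n).isClosed_compl

/-- the category question -/
def Q1 (μ : Measure G) (m : ℕ) : Prop :=
  ∃ Ω : Set (Fin m → G), IsGδ Ω ∧ Dense Ω ∧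
    ∀ a ∈ Ω, Dense ((Subgroup.closure (Set.range a) : Subgroup G) : Set G) → AsympRamanujan μ a

theorem q1_iff (μ : Measure G) (n : ℕ) :
    Q1 μ (n + 2) ↔ ∀ᶠ a in residual (Fin (n + 2) → G), AsympRamanujan μ a := by
  constructor
  · rintro ⟨Ω, h1, h2, h3⟩
    filter_upwards [residual_of_dense_Gδ h1 h2, residual_dense n] with a ha hd
    exact h3 a ha hd
  · intro h
    obtain ⟨t, ht, h1, h2⟩ := mem_residual.1 h
    exact ⟨t, h1, h2, fun a ha _ => ht ha⟩

theorem main1 (μ : Measure G) [μ.IsHaarMeasure] [Nontrivial G] (m : ℕ) (hm : 3 ≤ m) :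
    (Q1 μ m → ∀ᶠ a in residual (Fin m → G), ∀ b, NielsenEquiv a b → AsympRamanujan μ b) ∧
    (¬ Q1 μ m → ∃ ε : ℝ, 0 < ε ∧ ∀ᶠ a in residual (Fin m → G),
        {b | NielsenEquiv a b ∧ Dense ((Subgroup.closure (Set.range b) : Subgroup G) : Set G) ∧
          ¬ BoundedBy μ b (2 * Real.sqrt (2 * (m : ℝ) - 1) + ε)}.Infinite) := by
  obtain ⟨n, rfl⟩ : ∃ n, m = n + 3 := ⟨m - 3, by omega⟩
  have hgen := residual_dense (G := G) (n + 1)
  constructor
  · intro h
    have h1 := (q1_iff μ (n + 1)).1 h
    have h2 : IsMeagre {a : Fin (n + 3) → G | ¬ AsympRamanujan μ a} := by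
      unfold IsMeagre
      filter_upwards [h1] with a ha
      simpa using ha
    have h3 := star_meagre h2
    filter_upwards [h3] with a ha b hab
    by_contra hb
    exact ha ((mem_star _ a).2 ⟨b, hab, hb⟩)
  · intro h
    have h1 : ¬ IsMeagre {a : Fin (n + 3) → G | ¬ AsympRamanujan μ a} := by
      intro h0
      apply h
      refine (q1_iff μ (n + 1)).2 ?_
      filter_upwards [h0] with a ha
      simpa using ha
    rw [not_ramanujan_eq] at h1
    have h2 : ∃ j : ℕ, ¬ IsMeagre {a : Fin (n + 3) → G |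
        ¬ BoundedBy μ a (2 * Real.sqrt (2 * ((n + 3 : ℕ) : ℝ) - 1) + 1 / ((j : ℝ) + 1))} := by
      by_contra hcon
      push Not at hcon
      exact h1 (isMeagre_iUnion' hcon)
    obtain ⟨j, hj⟩ := h2
    set c : ℝ := 2 * Real.sqrt (2 * ((n + 3 : ℕ) : ℝ) - 1) + 1 / ((j : ℝ) + 1) with hc
    have h3 : {a : Fin (n + 3) → G | ¬ BoundedBy μ a c} =
      (⋂ k, {a : Fin (n + 3) → G | Pos (D μ a) c k}) ∪
        (⋂ k, {a : Fin (n + 3) → G | Pos (-(D μ a)) c k}) := by
      ext a
      simp only [mem_setOf_eq, mem_union, mem_iInter]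
      exact not_boundedBy_iff μ a c
    have h4 : ∃ O : ℕ → Set (Fin (n + 3) → G), (∀ k, IsOpen (O k)) ∧ ¬ IsMeagre (⋂ k, O k) ∧
        (⋂ k, O k) ⊆ {a : Fin (n + 3) → G | ¬ BoundedBy μ a c} := by
      by_contra hcon
      push Not at hcon
      apply hj
      rw [h3]
      refine IsMeagre.union ?_ ?_
      · by_contra h5
        exact hcon _ (fun k => isOpen_pos1 μ (n + 3) c k) h5 (by rw [h3]; exact subset_union_left)
      · by_contra h5
        exact hcon _ (fun k => isOpen_pos2 μ (n + 3) c k) h5 (by rw [h3]; exact subset_union_right)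
    obtain ⟨O, hO, hOm, hOs⟩ := h4
    obtain ⟨V, hV, hVne, hVm⟩ := nonmeagre_gdelta O hO hOm
    refine ⟨1 / ((j : ℝ) + 1), by positivity, ?_⟩
    filter_upwards [star_residual_infinite n hV hVne hVm, hgen] with a ha hd
    refine ha.mono ?_
    rintro b ⟨hab, hb⟩
    refine ⟨hab, ?_, hOs hb⟩
    rw [← range_closure_equiv hab]
    exact hd

end

end Run7.h189.AR
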