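import Pool.Agent.Run7.h189.AR.Gen

/-! Zero-one law for measurable sets of tuples invariant under the elementary moves
`a_i ↦ a_j a_i`. -/

open MeasureTheory Set Filter Topology
open scoped Pointwise

namespace Run7.h189.AR

section
variable (G : Type) [Group G] [TopologicalSpace G] [IsTopologicalGroup G] [CompactSpace G]
  [ConnectedSpace G] [T2Space G] [SecondCountableTopology G] [MeasurableSpace G] [BorelSpace G]
  (ν : Measure G) [IsProbabilityMeasure ν] [ν.IsHaarMeasure]

theorem zero_one_aux (n : ℕ) (A : Set (Fin (n + 3) → G)) (hA : MeasurableSet A)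
    (hinv : ∀ i j, i ≠ j → ∀ a, (Function.update a i (a j * a i) ∈ A ↔ a ∈ A)) :
    EventuallyConst A (ae (Measure.pi (fun _ : Fin (n + 3) => ν))) := by
  set μ : Measure (Fin (n + 3) → G) := Measure.pi (fun _ : Fin (n + 3) => ν) with hμ
  have key : ∀ (i : Fin (n + 3)) (g : G), ∀ᵐ a ∂μ, (Pi.mulSingle i g * a ∈ A ↔ a ∈ A) := by
    intro i g
    have h1 := measurePreserving_piFinSuccAbove (fun _ : Fin (n + 3) => ν) i
    set e := MeasurableEquiv.piFinSuccAbove (fun _ : Fin (n + 3) => G) i with he
    have hes : ∀ (x : G) (b : Fin (n + 2) → G), e.symm (x, b) = Fin.insertNth i x b :=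
      fun _ _ => rfl
    -- the statement on the product
    have h2 : ∀ᵐ p ∂(ν.prod (Measure.pi (fun _ : Fin (n + 2) => ν))),
        (Pi.mulSingle i g * e.symm p ∈ A ↔ e.symm p ∈ A) := by
      have h3 : ∀ᵐ q ∂((Measure.pi (fun _ : Fin (n + 2) => ν)).prod ν),
          (Pi.mulSingle i g * e.symm q.swap ∈ A ↔ e.symm q.swap ∈ A) := by
        have hm1 : Measurable (fun q : (Fin (n + 2) → G) × G =>
            Pi.mulSingle (M := fun _ : Fin (n + 3) => G) i g * e.symm q.swap) :=
          (measurable_const_mul _).comp (e.symm.measurable.comp measurable_swap)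
        have hm2 : Measurable (fun q : (Fin (n + 2) → G) × G => e.symm q.swap) :=
          e.symm.measurable.comp measurable_swap
        have hms : MeasurableSet {q : (Fin (n + 2) → G) × G |
            (Pi.mulSingle i g * e.symm q.swap ∈ A ↔ e.symm q.swap ∈ A)} := by
          have e1 : MeasurableSet {q : (Fin (n + 2) → G) × G |
            Pi.mulSingle i g * e.symm q.swap ∈ A} := hm1 hA
          have e2 : MeasurableSet {q : (Fin (n + 2) → G) × G | e.symm q.swap ∈ A} := hm2 hA
          have : {q : (Fin (n + 2) → G) × G |
            (Pi.mulSingle i g * e.symm q.swap ∈ A ↔ e.symm q.swap ∈ A)} =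
            ({q : (Fin (n + 2) → G) × G | Pi.mulSingle i g * e.symm q.swap ∈ A} ∩
              {q : (Fin (n + 2) → G) × G | e.symm q.swap ∈ A}) ∪
            ({q : (Fin (n + 2) → G) × G | Pi.mulSingle i g * e.symm q.swap ∈ A}ᶜ ∩
              {q : (Fin (n + 2) → G) × G | e.symm q.swap ∈ A}ᶜ) := by
            ext q
            simp only [mem_setOf_eq, mem_union, mem_inter_iff, mem_compl_iff]
            tauto
          rw [this]
          exact (e1.inter e2).union (e1.compl.inter e2.compl)
        refine (Measure.ae_prod_iff_ae_ae hms).2 ?_
        filter_upwards [ae_dense G ν n] with b hb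
        set S : Set G := {x | e.symm (x, b) ∈ A} with hS
        have hSm : MeasurableSet S :=
          (e.symm.measurable.comp measurable_prodMk_right) hA
        have hupd : ∀ (h x : G), Pi.mulSingle i h * e.symm (x, b) = e.symm (h * x, b) := by
          intro h x
          rw [hes, hes]
          funext j
          rcases Fin.eq_self_or_eq_succAbove i j with rfl | ⟨k, rfl⟩
          · simp
          · simp
        have hSinv : ∀ j : Fin (n + 2), ∀ x, b j * x ∈ S ↔ x ∈ S := by
          intro j x
          have := hinv i (i.succAbove j) (Fin.succAbove_ne i j).symm (e.symm (x, b))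
          have h5 : Function.update (e.symm (x, b)) i
              ((e.symm (x, b)) (i.succAbove j) * (e.symm (x, b)) i) = e.symm (b j * x, b) := by
            rw [hes, hes]
            funext l
            rcases Fin.eq_self_or_eq_succAbove i l with rfl | ⟨k, rfl⟩
            · simp
            · simp
          rw [h5] at this
          exact this
        have hSc : EventuallyConst S (ae ν) := by
          refine aeconst_of_dense_setOfPred_preimage_smul_eq (M := G) hSm.nullMeasurableSet ?_
          refine hb.mono ?_
          intro y hy
          have hle : Subgroup.closure (Set.range b) ≤ MulAction.stabilizer G S := by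
            rw [Subgroup.closure_le]
            rintro _ ⟨j, rfl⟩
            rw [SetLike.mem_coe, MulAction.mem_stabilizer_iff]
            ext x
            rw [mem_smul_set_iff_inv_smul_mem, smul_eq_mul]
            have := hSinv j ((b j)⁻¹ * x)
            rw [mul_inv_cancel_left] at this
            exact this.symm
          have h6 := hle hy
          rw [MulAction.mem_stabilizer_iff] at h6
          change (fun x => y • x) ⁻¹' S = S
          conv_lhs => rw [← h6]
          ext x
          rw [mem_preimage, mem_smul_set_iff_inv_smul_mem, inv_smul_smul]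
        have h7 : ∀ᵐ x ∂ν, (g * x ∈ S ↔ x ∈ S) := by
          rcases eventuallyConst_set.1 hSc with h8 | h8
          · have h9 := (measurePreserving_mul_left ν g).quasiMeasurePreserving.ae h8
            filter_upwards [h8, h9] with x hx hx2
            exact ⟨fun _ => hx, fun _ => hx2⟩
          · have h9 := (measurePreserving_mul_left ν g).quasiMeasurePreserving.ae h8
            filter_upwards [h8, h9] with x hx hx2
            exact ⟨fun h => absurd h hx2, fun h => absurd h hx⟩
        filter_upwards [h7] with x hx
        change (Pi.mulSingle i g * e.symm (x, b) ∈ A ↔ e.symm (x, b) ∈ A)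
        rw [hupd]
        exact hx
      have h4 := (Measure.measurePreserving_swap (μ := ν)
        (ν := Measure.pi (fun _ : Fin (n + 2) => ν))).quasiMeasurePreserving.ae h3
      filter_upwards [h4] with p hp
      simpa using hp
    have h5 := h1.quasiMeasurePreserving.ae h2
    filter_upwards [h5] with a ha
    simpa using ha
  have htop : MulAction.aestabilizer (Fin (n + 3) → G) μ A = ⊤ := by
    rw [eq_top_iff]
    intro x _
    refine Submonoid.pi_mem_of_mulSingle_mem (f := fun _ : Fin (n + 3) => G) x ?_
    intro i
    change (Pi.mulSingle i (x i) : Fin (n + 3) → G) • A =ᵐ[μ] A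
    have h := key i (x i)⁻¹
    filter_upwards [h] with a ha
    refine propext ?_
    change (a ∈ (Pi.mulSingle i (x i) : Fin (n + 3) → G) • A) ↔ a ∈ A
    rw [mem_smul_set_iff_inv_smul_mem, ← Pi.mulSingle_inv, smul_eq_mul]
    exact ha
  exact MulAction.aeconst_of_aestabilizer_eq_top (Fin (n + 3) → G) hA.nullMeasurableSet htop

end

end Run7.h189.AR
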