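import Pool.Agent.Run7.h189.AR.Defs
import Pool.Agent.Run7.h189.AR.ZeroOne

/-! Nielsen saturation of a set of tuples. -/

open MeasureTheory Set Filter Topology

namespace Run7.h189.AR

section
variable {G : Type} [Group G]

/-- sets of tuples from which `B` can be reached in at most `k` moves -/
def Rch {m : ℕ} (B : Set (Fin m → G)) : ℕ → Set (Fin m → G)
  | 0 => B
  | (k + 1) => Rch B k ∪ ((⋃ σ : Equiv.Perm (Fin m), (fun a => a ∘ σ) ⁻¹' Rch B k) ∪
      ((⋃ i, (fun a => Function.update a i (a i)⁻¹) ⁻¹' Rch B k) ∪
      (⋃ i, ⋃ j, ⋃ _ : i ≠ j, (fun a => Function.update a i (a j * a i)) ⁻¹' Rch B k)))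

/-- tuples from which `B` can be reached by Nielsen moves -/
def Star {m : ℕ} (B : Set (Fin m → G)) : Set (Fin m → G) := ⋃ k, Rch B k

theorem mem_rch_succ {m : ℕ} (B : Set (Fin m → G)) (k : ℕ) (a : Fin m → G) :
    a ∈ Rch B (k + 1) ↔ a ∈ Rch B k ∨ ∃ b, NielsenMove a b ∧ b ∈ Rch B k := by
  simp only [Rch, mem_union, mem_iUnion, mem_preimage, NielsenMove]
  constructor
  · rintro (h | ⟨σ, h⟩ | ⟨i, h⟩ | ⟨i, j, hij, h⟩)
    · exact Or.inl h
    · exact Or.inr ⟨_, Or.inl ⟨σ, rfl⟩, h⟩
    · exact Or.inr ⟨_, Or.inr (Or.inl ⟨i, rfl⟩), h⟩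
    · exact Or.inr ⟨_, Or.inr (Or.inr ⟨i, j, hij, rfl⟩), h⟩
  · rintro (h | ⟨b, (⟨σ, rfl⟩ | ⟨i, rfl⟩ | ⟨i, j, hij, rfl⟩), h⟩)
    · exact Or.inl h
    · exact Or.inr (Or.inl ⟨σ, h⟩)
    · exact Or.inr (Or.inr (Or.inl ⟨i, h⟩))
    · exact Or.inr (Or.inr (Or.inr ⟨i, j, hij, h⟩))

theorem mem_star {m : ℕ} (B : Set (Fin m → G)) (a : Fin m → G) :
    a ∈ Star B ↔ ∃ b, NielsenEquiv a b ∧ b ∈ B := by
  constructor
  · intro h
    obtain ⟨k, hk⟩ := mem_iUnion.1 h
    induction k generalizing a with
    | zero => exact ⟨a, Relation.ReflTransGen.refl, hk⟩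
    | succ k ih =>
      rcases (mem_rch_succ B k a).1 hk with h1 | ⟨b, hab, hb⟩
      · exact ih a (mem_iUnion.2 ⟨k, h1⟩) h1
      · obtain ⟨c, hbc, hc⟩ := ih b (mem_iUnion.2 ⟨k, hb⟩) hb
        exact ⟨c, Relation.ReflTransGen.head hab hbc, hc⟩
  · rintro ⟨b, hab, hb⟩
    induction hab using Relation.ReflTransGen.head_induction_on with
    | refl => exact mem_iUnion.2 ⟨0, hb⟩
    | head hac _ ih =>
      obtain ⟨k, hk⟩ := mem_iUnion.1 ih
      exact mem_iUnion.2 ⟨k + 1, (mem_rch_succ B k _).2 (Or.inr ⟨_, hac, hk⟩)⟩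

theorem mul_symm {m : ℕ} (a : Fin m → G) {i j : Fin m} (hij : i ≠ j) :
    NielsenEquiv (Function.update a i (a j * a i)) a := by
  set a1 := Function.update a i (a j * a i) with h1
  set a2 := Function.update a1 j (a1 j)⁻¹ with h2
  set a3 := Function.update a2 i (a2 j * a2 i) with h3
  set a4 := Function.update a3 j (a3 j)⁻¹ with h4
  have e1j : a1 j = a j := by rw [h1, Function.update_of_ne hij.symm]
  have e1i : a1 i = a j * a i := by rw [h1, Function.update_self]
  have e2j : a2 j = (a j)⁻¹ := by rw [h2, Function.update_self, e1j]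
  have e2i : a2 i = a j * a i := by rw [h2, Function.update_of_ne hij, e1i]
  have e3i : a3 i = a i := by rw [h3, Function.update_self, e2j, e2i, inv_mul_cancel_left]
  have e3j : a3 j = (a j)⁻¹ := by rw [h3, Function.update_of_ne hij.symm, e2j]
  have e4 : a4 = a := by
    funext k
    by_cases hkj : k = j
    · subst hkj
      rw [h4, Function.update_self, e3j, inv_inv]
    · rw [h4, Function.update_of_ne hkj]
      by_cases hki : k = i
      · subst hki
        exact e3i
      · rw [h3, Function.update_of_ne hki, h2, Function.update_of_ne hkj, h1,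
          Function.update_of_ne hki]
  have m1 : NielsenMove a1 a2 := Or.inr (Or.inl ⟨j, rfl⟩)
  have m2 : NielsenMove a2 a3 := Or.inr (Or.inr ⟨i, j, hij, rfl⟩)
  have m3 : NielsenMove a3 a4 := Or.inr (Or.inl ⟨j, rfl⟩)
  rw [e4] at m3
  exact ((Relation.ReflTransGen.single m1).tail m2).tail m3

theorem star_inv {m : ℕ} (B : Set (Fin m → G)) (i j : Fin m) (hij : i ≠ j) (a : Fin m → G) :
    Function.update a i (a j * a i) ∈ Star B ↔ a ∈ Star B := by
  rw [mem_star, mem_star]
  constructor
  · rintro ⟨b, h, hb⟩
    exact ⟨b, Relation.ReflTransGen.head (Or.inr (Or.inr ⟨i, j, hij, rfl⟩)) h, hb⟩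
  · rintro ⟨b, h, hb⟩
    exact ⟨b, (mul_symm a hij).trans h, hb⟩

theorem range_closure_move {m : ℕ} {a b : Fin m → G} (h : NielsenMove a b) :
    Subgroup.closure (Set.range a) = Subgroup.closure (Set.range b) := by
  rcases h with ⟨σ, rfl⟩ | ⟨i, rfl⟩ | ⟨i, j, hij, rfl⟩
  · rw [σ.surjective.range_comp]
  · apply le_antisymm
    · rw [Subgroup.closure_le]
      rintro _ ⟨k, rfl⟩
      by_cases hk : k = i
      · subst hk
        have : (Function.update a k (a k)⁻¹) k ∈
          Subgroup.closure (Set.range (Function.update a k (a k)⁻¹)) :=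
          Subgroup.subset_closure ⟨k, rfl⟩
        rw [Function.update_self] at this
        exact (Subgroup.inv_mem_iff _).1 this
      · refine Subgroup.subset_closure ⟨k, ?_⟩
        rw [Function.update_of_ne hk]
    · rw [Subgroup.closure_le]
      rintro _ ⟨k, rfl⟩
      by_cases hk : k = i
      · subst hk
        rw [Function.update_self]
        exact Subgroup.inv_mem _ (Subgroup.subset_closure ⟨k, rfl⟩)
      · rw [Function.update_of_ne hk]
        exact Subgroup.subset_closure ⟨k, rfl⟩
  · apply le_antisymm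
    · rw [Subgroup.closure_le]
      have hj : a j ∈ Subgroup.closure (Set.range (Function.update a i (a j * a i))) := by
        refine Subgroup.subset_closure ⟨j, ?_⟩
        rw [Function.update_of_ne hij.symm]
      rintro _ ⟨k, rfl⟩
      by_cases hk : k = i
      · subst hk
        have : (Function.update a k (a j * a k)) k ∈
          Subgroup.closure (Set.range (Function.update a k (a j * a k))) :=
          Subgroup.subset_closure ⟨k, rfl⟩
        rw [Function.update_self] at this
        exact (Subgroup.mul_mem_cancel_left _ hj).1 this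
      · refine Subgroup.subset_closure ⟨k, ?_⟩
        rw [Function.update_of_ne hk]
    · rw [Subgroup.closure_le]
      rintro _ ⟨k, rfl⟩
      by_cases hk : k = i
      · subst hk
        rw [Function.update_self]
        exact Subgroup.mul_mem _ (Subgroup.subset_closure ⟨j, rfl⟩)
          (Subgroup.subset_closure ⟨k, rfl⟩)
      · rw [Function.update_of_ne hk]
        exact Subgroup.subset_closure ⟨k, rfl⟩

theorem range_closure_equiv {m : ℕ} {a b : Fin m → G} (h : NielsenEquiv a b) :
    Subgroup.closure (Set.range a) = Subgroup.closure (Set.range b) := by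
  induction h with
  | refl => rfl
  | tail _ h ih => rw [ih, range_closure_move h]

end

section
variable {G : Type} [Group G] [TopologicalSpace G] [IsTopologicalGroup G]

theorem cont_perm {m : ℕ} (σ : Equiv.Perm (Fin m)) : Continuous fun a : Fin m → G => a ∘ σ :=
  continuous_pi fun i => continuous_apply (σ i)

theorem cont_inv {m : ℕ} (i : Fin m) :
    Continuous fun a : Fin m → G => Function.update a i (a i)⁻¹ :=
  continuous_id.update i (continuous_apply i).inv

theorem cont_mul {m : ℕ} (i j : Fin m) :
    Continuous fun a : Fin m → G => Function.update a i (a j * a i) :=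
  continuous_id.update i ((continuous_apply j).mul (continuous_apply i))

variable [SecondCountableTopology G] [MeasurableSpace G] [BorelSpace G]

theorem measurableSet_rch {m : ℕ} {B : Set (Fin m → G)} (hB : MeasurableSet B) (k : ℕ) :
    MeasurableSet (Rch B k) := by
  induction k with
  | zero => exact hB
  | succ k ih =>
    refine ih.union ((MeasurableSet.iUnion fun σ => ?_).union
      ((MeasurableSet.iUnion fun i => ?_).union (MeasurableSet.iUnion fun i =>
        MeasurableSet.iUnion fun j => MeasurableSet.iUnion fun _ => ?_)))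
    · exact (cont_perm σ).measurable ih
    · exact (cont_inv i).measurable ih
    · exact (cont_mul i j).measurable ih

theorem measurableSet_star {m : ℕ} {B : Set (Fin m → G)} (hB : MeasurableSet B) :
    MeasurableSet (Star B) := MeasurableSet.iUnion fun k => measurableSet_rch hB k

end

section
variable {G : Type} [Group G] [TopologicalSpace G] [IsTopologicalGroup G] [CompactSpace G]
  [T2Space G] [SecondCountableTopology G] [MeasurableSpace G] [BorelSpace G]
  (μ : Measure G) [μ.IsHaarMeasure]

theorem mp_perm {m : ℕ} (σ : Equiv.Perm (Fin m)) :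
    MeasurePreserving (fun a : Fin m → G => a ∘ σ) (Measure.pi fun _ => μ)
      (Measure.pi fun _ => μ) := by
  have h := measurePreserving_piCongrLeft (α := fun _ : Fin m => G) (fun _ : Fin m => μ) σ.symm
  convert h using 1
  funext a
  funext i
  have := MeasurableEquiv.piCongrLeft_apply_apply (β := fun _ : Fin m => G) σ.symm a (σ i)
  simp only [Equiv.symm_apply_apply] at this
  simp [MeasurableEquiv.coe_piCongrLeft, this]

theorem mp_inv {n : ℕ} (i : Fin (n + 1)) :
    Measure.QuasiMeasurePreserving
      (fun a : Fin (n + 1) → G => Function.update a i (a i)⁻¹) (Measure.pi fun _ => μ)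
      (Measure.pi fun _ => μ) := by
  have h1 := measurePreserving_piFinSuccAbove (fun _ : Fin (n + 1) => μ) i
  have h2 : Measure.QuasiMeasurePreserving (Prod.map (fun x : G => x⁻¹) (id : (Fin n → G) → _))
      (μ.prod (Measure.pi fun _ : Fin n => μ)) (μ.prod (Measure.pi fun _ : Fin n => μ)) :=
    by
    refine ⟨measurable_inv.prodMap measurable_id, ?_⟩
    rw [← Measure.map_prod_map _ _ measurable_inv measurable_id, Measure.map_id]
    exact (quasiMeasurePreserving_inv μ).absolutelyContinuous.prod
      Measure.AbsolutelyContinuous.rfl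
  have h4 := (h1.symm _).quasiMeasurePreserving.comp (h2.comp h1.quasiMeasurePreserving)
  convert h4 using 1
  funext a
  have hes : ∀ (x : G) (b : Fin n → G),
    (MeasurableEquiv.piFinSuccAbove (fun _ : Fin (n + 1) => G) i).symm (x, b)
      = Fin.insertNth i x b := fun _ _ => rfl
  have he : ∀ a : Fin (n + 1) → G,
    (MeasurableEquiv.piFinSuccAbove (fun _ : Fin (n + 1) => G) i) a
      = (a i, fun l => a (i.succAbove l)) := fun _ => rfl
  simp only [Function.comp, he, Prod.map, hes, id]
  funext l
  rcases Fin.eq_self_or_eq_succAbove i l with rfl | ⟨l', rfl⟩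
  · simp
  · simp

theorem mp_mul {n : ℕ} (i j : Fin (n + 1)) (hij : i ≠ j) :
    MeasurePreserving (fun a : Fin (n + 1) → G => Function.update a i (a j * a i))
      (Measure.pi fun _ => μ) (Measure.pi fun _ => μ) := by
  obtain ⟨k, rfl⟩ : ∃ k, i.succAbove k = j := Fin.exists_succAbove_eq hij.symm
  have h1 := measurePreserving_piFinSuccAbove (fun _ : Fin (n + 1) => μ) i
  have h2 : MeasurePreserving (fun q : (Fin n → G) × G => (q.1, q.1 k * q.2))
      ((Measure.pi fun _ : Fin n => μ).prod μ) ((Measure.pi fun _ : Fin n => μ).prod μ) := by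
    refine MeasurePreserving.skew_product (g := fun (b : Fin n → G) (x : G) => b k * x)
      (MeasurePreserving.id _) ?_ ?_
    · exact ((measurable_pi_apply k).comp measurable_fst).mul measurable_snd
    · exact Eventually.of_forall fun b => (measurePreserving_mul_left μ (b k)).map_eq
  have h3 := (Measure.measurePreserving_swap (μ := Measure.pi fun _ : Fin n => μ) (ν := μ)).comp
    (h2.comp (Measure.measurePreserving_swap (μ := μ) (ν := Measure.pi fun _ : Fin n => μ)))
  have h4 := (h1.symm _).comp (h3.comp h1)
  convert h4 using 1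
  funext a
  have hes : ∀ (x : G) (b : Fin n → G),
    (MeasurableEquiv.piFinSuccAbove (fun _ : Fin (n + 1) => G) i).symm (x, b)
      = Fin.insertNth i x b := fun _ _ => rfl
  have he : ∀ a : Fin (n + 1) → G,
    (MeasurableEquiv.piFinSuccAbove (fun _ : Fin (n + 1) => G) i) a
      = (a i, fun l => a (i.succAbove l)) := fun _ => rfl
  simp only [Function.comp, he, Prod.swap, hes]
  funext l
  rcases Fin.eq_self_or_eq_succAbove i l with rfl | ⟨l', rfl⟩
  · simp
  · simp

theorem star_null {n : ℕ} {B : Set (Fin (n + 1) → G)}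
    (hB : (Measure.pi fun _ : Fin (n + 1) => μ) B = 0) :
    (Measure.pi fun _ : Fin (n + 1) => μ) (Star B) = 0 := by
  refine measure_iUnion_null fun k => ?_
  induction k with
  | zero => exact hB
  | succ k ih =>
    refine measure_union_null ih (measure_union_null (measure_iUnion_null fun σ => ?_)
      (measure_union_null (measure_iUnion_null fun i => ?_) (measure_iUnion_null fun i =>
        measure_iUnion_null fun j => measure_iUnion_null fun hij => ?_)))
    · exact (mp_perm μ σ).quasiMeasurePreserving.preimage_null ih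
    · exact (mp_inv μ i).preimage_null ih
    · exact (mp_mul μ i j hij).quasiMeasurePreserving.preimage_null ih

end

end Run7.h189.AR
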