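import Pool.Agent.Run7.h189.AR.Spec
import Pool.Agent.Run7.h189.AR.Star

/-! The zero-one law for the measure version. -/

open MeasureTheory Set Filter Topology

namespace Run7.h189.AR

section
variable {G : Type} [Group G] [TopologicalSpace G] [IsTopologicalGroup G] [CompactSpace G]
  [T2Space G] [SecondCountableTopology G] [MeasurableSpace G] [BorelSpace G]

theorem pi_ac (μ ν : Measure G) [μ.IsHaarMeasure] [ν.IsHaarMeasure] (m : ℕ) :
    (Measure.pi fun _ : Fin m => μ) ≪ (Measure.pi fun _ : Fin m => ν) :=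
  Measure.absolutelyContinuous_isHaarMeasure _ _

variable [ConnectedSpace G]

theorem ae_dense' (μ : Measure G) [μ.IsHaarMeasure] (n : ℕ) :
    ∀ᵐ a ∂(Measure.pi (fun _ : Fin (n + 2) => μ)),
      Dense ((Subgroup.closure (Set.range a) : Subgroup G) : Set G) := by
  have hp : IsProbabilityMeasure (Measure.haarMeasure (⊤ : TopologicalSpace.PositiveCompacts G)) :=
    ⟨Measure.haarMeasure_self⟩
  exact (pi_ac μ (Measure.haarMeasure ⊤) (n + 2)).ae_le (ae_dense G (Measure.haarMeasure ⊤) n)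

theorem zero_one (μ : Measure G) [μ.IsHaarMeasure] (n : ℕ) (A : Set (Fin (n + 3) → G))
    (hA : MeasurableSet A)
    (hinv : ∀ i j, i ≠ j → ∀ a, (Function.update a i (a j * a i) ∈ A ↔ a ∈ A)) :
    EventuallyConst A (ae (Measure.pi (fun _ : Fin (n + 3) => μ))) := by
  have hp : IsProbabilityMeasure (Measure.haarMeasure (⊤ : TopologicalSpace.PositiveCompacts G)) :=
    ⟨Measure.haarMeasure_self⟩
  exact (zero_one_aux G (Measure.haarMeasure ⊤) n A hA hinv).anti
    (pi_ac μ (Measure.haarMeasure ⊤) (n + 3)).ae_le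

/-- a non-null measurable set is reached by Nielsen moves from almost every tuple -/
theorem star_conull (μ : Measure G) [μ.IsHaarMeasure] (n : ℕ) (B : Set (Fin (n + 3) → G))
    (hB : MeasurableSet B) (hpos : (Measure.pi fun _ : Fin (n + 3) => μ) B ≠ 0) :
    ∀ᵐ a ∂(Measure.pi fun _ : Fin (n + 3) => μ), a ∈ Star B := by
  have h := zero_one μ n (Star B) (measurableSet_star hB)
    (fun i j hij a => star_inv B i j hij a)
  rcases eventuallyConst_set.1 h with h1 | h1
  · exact h1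
  · exfalso
    apply hpos
    refine measure_mono_null ?_ (ae_iff.1 h1)
    intro a ha
    simp only [not_not, mem_setOf_eq]
    exact (mem_star B a).2 ⟨a, Relation.ReflTransGen.refl, ha⟩

theorem noAtoms_pi (μ : Measure G) [μ.IsHaarMeasure] [Nontrivial G] (n : ℕ) :
    NullSingletonClass (Measure.pi fun _ : Fin (n + 1) => μ) := by
  haveI : NeBot (𝓝[≠] (1 : G)) := ConnectedSpace.neBot_nhdsWithin_compl_of_nontrivial_of_t1space 1
  haveI : NullSingletonClass μ := inferInstance
  exact Measure.pi_nullSingletonClass (μ := fun _ : Fin (n + 1) => μ) 0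

/-- infinitely many tuples of a non-null measurable set are reached from almost every tuple -/
theorem star_infinite (μ : Measure G) [μ.IsHaarMeasure] [Nontrivial G] (n : ℕ)
    (B : Set (Fin (n + 3) → G)) (hB : MeasurableSet B)
    (hpos : (Measure.pi fun _ : Fin (n + 3) => μ) B ≠ 0) :
    ∀ᵐ a ∂(Measure.pi fun _ : Fin (n + 3) => μ), {b | NielsenEquiv a b ∧ b ∈ B}.Infinite := by
  haveI := noAtoms_pi μ (n + 2)
  obtain ⟨b, hbc, _, hb⟩ := TopologicalSpace.exists_countable_basis (Fin (n + 3) → G)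
  have h1 : ∀ᵐ a ∂(Measure.pi fun _ : Fin (n + 3) => μ), ∀ V ∈ b,
      (Measure.pi fun _ : Fin (n + 3) => μ) (B ∩ V) ≠ 0 → a ∈ Star (B ∩ V) := by
    rw [ae_ball_iff hbc]
    intro V hV
    by_cases h0 : (Measure.pi fun _ : Fin (n + 3) => μ) (B ∩ V) = 0
    · exact Eventually.of_forall fun a h => absurd h0 h
    · filter_upwards [star_conull μ n (B ∩ V) (hB.inter (hb.isOpen hV).measurableSet) h0] with a ha
      exact fun _ => ha
  filter_upwards [h1] with a ha
  intro hfin
  set F := {b | NielsenEquiv a b ∧ b ∈ B} with hF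
  have hFc : IsClosed F := hfin.isClosed
  have hF0 : (Measure.pi fun _ : Fin (n + 3) => μ) F = 0 := hfin.measure_zero _
  have hcov : B ⊆ F ∪ ⋃ V ∈ {V ∈ b | V ⊆ Fᶜ}, (B ∩ V) := by
    intro x hx
    by_cases hxF : x ∈ F
    · exact Or.inl hxF
    · right
      obtain ⟨V, hV, hxV, hVF⟩ := hb.exists_subset_of_mem_open (show x ∈ Fᶜ from hxF)
        hFc.isOpen_compl
      exact mem_biUnion (show V ∈ {V ∈ b | V ⊆ Fᶜ} from ⟨hV, hVF⟩) ⟨hx, hxV⟩
  apply hpos
  refine measure_mono_null hcov (measure_union_null hF0 ?_)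
  refine (measure_biUnion_null_iff (hbc.mono fun V hV => hV.1)).2 ?_
  rintro V ⟨hV, hVF⟩
  by_contra h0
  obtain ⟨c, hac, hcB, hcV⟩ := (mem_star _ a).1 (ha V hV h0)
  exact hVF hcV ⟨hac, hcB⟩

theorem not_ramanujan_eq (μ : Measure G) [μ.IsHaarMeasure] (m : ℕ) :
    {a : Fin m → G | ¬ AsympRamanujan μ a} =
      ⋃ j : ℕ, {a | ¬ BoundedBy μ a (2 * Real.sqrt (2 * (m : ℝ) - 1) + 1 / ((j : ℝ) + 1))} := by
  ext a
  simp only [mem_setOf_eq, mem_iUnion]
  constructor
  · intro h
    by_contra hcon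
    push Not at hcon
    apply h
    intro ε hε
    obtain ⟨j, hj⟩ := exists_nat_one_div_lt hε
    obtain ⟨n, g, hg, hb⟩ := hcon j
    refine ⟨n, g, hg, fun f hf h0 h1 => (hb f hf h0 h1).trans ?_⟩
    refine mul_le_mul_of_nonneg_right ?_ (integral_nonneg fun x => by positivity)
    linarith
  · rintro ⟨j, hj⟩ h
    exact hj (h _ (by positivity))

theorem main (μ : Measure G) [μ.IsHaarMeasure] [Nontrivial G] (m : ℕ) (hm : 3 ≤ m) :
    ((∀ᵐ a ∂(Measure.pi fun _ : Fin m => μ),
        Dense ((Subgroup.closure (Set.range a) : Subgroup G) : Set G) → AsympRamanujan μ a) →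
      ∀ᵐ a ∂(Measure.pi fun _ : Fin m => μ), ∀ b, NielsenEquiv a b → AsympRamanujan μ b) ∧
    ((¬ ∀ᵐ a ∂(Measure.pi fun _ : Fin m => μ),
        Dense ((Subgroup.closure (Set.range a) : Subgroup G) : Set G) → AsympRamanujan μ a) →
      ∃ ε : ℝ, 0 < ε ∧ ∀ᵐ a ∂(Measure.pi fun _ : Fin m => μ),
        {b | NielsenEquiv a b ∧ Dense ((Subgroup.closure (Set.range b) : Subgroup G) : Set G) ∧
          ¬ BoundedBy μ b (2 * Real.sqrt (2 * (m : ℝ) - 1) + ε)}.Infinite) := by
  obtain ⟨n, rfl⟩ : ∃ n, m = n + 3 := ⟨m - 3, by omega⟩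
  have hgen := ae_dense' μ (n + 1)
  constructor
  · intro h
    have h1 : ∀ᵐ a ∂(Measure.pi fun _ : Fin (n + 3) => μ), AsympRamanujan μ a := by
      filter_upwards [h, hgen] with a h1 h2
      exact h1 h2
    have h2 : (Measure.pi fun _ : Fin (n + 3) => μ) {a | ¬ AsympRamanujan μ a} = 0 := ae_iff.1 h1
    have h3 := star_null μ (n := n + 2) h2
    filter_upwards [compl_mem_ae_iff.2 h3] with a ha b hab
    by_contra hb
    exact ha ((mem_star _ a).2 ⟨b, hab, hb⟩)
  · intro h
    have h1 : (Measure.pi fun _ : Fin (n + 3) => μ) {a | ¬ AsympRamanujan μ a} ≠ 0 := by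
      intro h0
      apply h
      have h1 : ∀ᵐ a ∂(Measure.pi fun _ : Fin (n + 3) => μ), AsympRamanujan μ a := ae_iff.2 h0
      filter_upwards [h1] with a ha _
      exact ha
    rw [not_ramanujan_eq] at h1
    have h2 : ∃ j : ℕ, (Measure.pi fun _ : Fin (n + 3) => μ)
        {a | ¬ BoundedBy μ a (2 * Real.sqrt (2 * ((n + 3 : ℕ) : ℝ) - 1) + 1 / ((j : ℝ) + 1))} ≠ 0 := by
      by_contra hcon
      push Not at hcon
      exact h1 (measure_iUnion_null hcon)
    obtain ⟨j, hj⟩ := h2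
    refine ⟨1 / ((j : ℝ) + 1), by positivity, ?_⟩
    have h3 := star_infinite μ n _ (measurableSet_not_boundedBy μ (n + 3) _) hj
    filter_upwards [h3, hgen] with a ha hd
    refine ha.mono ?_
    rintro b ⟨hab, hb⟩
    refine ⟨hab, ?_, hb⟩
    rw [← range_closure_equiv hab]
    exact hd

end

end Run7.h189.AR
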