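import Pool.Agent.Run7.h189.AR.Defs
import Pool.Agent.Run7.h189.AR.Hilb

/-! The set of tuples with the spectral bound is a countable union of closed sets. -/

open MeasureTheory Set Filter Topology

namespace Run7.h189.AR

section
variable {G : Type} [Group G] [TopologicalSpace G] [IsTopologicalGroup G] [CompactSpace G]
  [T2Space G] [SecondCountableTopology G] [MeasurableSpace G] [BorelSpace G]
  (μ : Measure G) [μ.IsHaarMeasure]

/-- left translation on `L²` -/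
noncomputable def U (c : G) : Lp ℂ 2 μ →L[ℂ] Lp ℂ 2 μ :=
  (Lp.compMeasurePreservingₗᵢ ℂ (fun x => c * x)
    (measurePreserving_mul_left μ c)).toContinuousLinearMap

theorem U_apply (c : G) (f : Lp ℂ 2 μ) :
    U μ c f = Lp.compMeasurePreserving (fun x => c * x) (measurePreserving_mul_left μ c) f := rfl

theorem U_ae (c : G) (f : Lp ℂ 2 μ) : (U μ c f : G → ℂ) =ᵐ[μ] fun x => f (c * x) := by
  rw [U_apply]
  exact Lp.coeFn_compMeasurePreserving f (measurePreserving_mul_left μ c)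

theorem U_smul (c : G) (f : Lp ℂ 2 μ) : U μ c f = (DomMulAct.mk c) • f := rfl

theorem U_cont (f : Lp ℂ 2 μ) : Continuous fun c : G => U μ c f := by
  have h : Continuous fun c : G => (DomMulAct.mk c) • f := by
    haveI : Fact ((2 : ENNReal) ≠ ⊤) := ⟨by norm_num⟩
    have h1 : Continuous fun c : G => ((DomMulAct.mk c, f) : Gᵈᵐᵃ × Lp ℂ 2 μ) :=
      (DomMulAct.continuous_mk).prodMk continuous_const
    exact continuous_smul.comp h1
  exact h

theorem U_mul (c d : G) (f : Lp ℂ 2 μ) : U μ c (U μ d f) = U μ (d * c) f := by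
  apply Lp.ext
  have h1 := U_ae μ c (U μ d f)
  have h2 := (measurePreserving_mul_left μ c).quasiMeasurePreserving.ae (U_ae μ d f)
  have h3 := U_ae μ (d * c) f
  filter_upwards [h1, h2, h3] with x hx1 hx2 hx3
  rw [hx1, hx2, hx3, mul_assoc]

theorem U_one (f : Lp ℂ 2 μ) : U μ 1 f = f := by
  apply Lp.ext
  filter_upwards [U_ae μ 1 f] with x hx
  rw [hx, one_mul]

theorem U_inner (c : G) (f g : Lp ℂ 2 μ) : inner ℂ (U μ c f) (U μ c g) = inner ℂ f g := by
  exact (Lp.compMeasurePreservingₗᵢ ℂ (fun x => c * x)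
    (measurePreserving_mul_left μ c)).inner_map_map f g

theorem U_adj (c : G) (f g : Lp ℂ 2 μ) : inner ℂ (U μ c f) g = inner ℂ f (U μ c⁻¹ g) := by
  rw [← U_inner μ c f (U μ c⁻¹ g), U_mul, inv_mul_cancel, U_one]

/-- the operator `Δ` -/
noncomputable def D {m : ℕ} (a : Fin m → G) : Lp ℂ 2 μ →L[ℂ] Lp ℂ 2 μ :=
  ∑ j, (U μ (a j) + U μ (a j)⁻¹)

theorem D_apply {m : ℕ} (a : Fin m → G) (f : Lp ℂ 2 μ) :
    D μ a f = ∑ j, (U μ (a j) f + U μ (a j)⁻¹ f) := by
  simp [D, ContinuousLinearMap.sum_apply]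

theorem D_cont {m : ℕ} (f : Lp ℂ 2 μ) : Continuous fun a : Fin m → G => D μ a f := by
  simp_rw [D_apply]
  refine continuous_finsetSum _ fun j _ => ?_
  exact ((U_cont μ f).comp (continuous_apply j)).add
    ((U_cont μ f).comp ((continuous_apply j).inv))

theorem D_symm {m : ℕ} (a : Fin m → G) (f g : Lp ℂ 2 μ) :
    inner ℂ (D μ a f) g = inner ℂ f (D μ a g) := by
  rw [D_apply, D_apply, sum_inner, inner_sum]
  refine Finset.sum_congr rfl fun j _ => ?_
  rw [inner_add_left, inner_add_right, U_adj, U_adj, inv_inv, add_comm]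

theorem D_ae {m : ℕ} (a : Fin m → G) (f : Lp ℂ 2 μ) (g : G → ℂ) (hg : f =ᵐ[μ] g) :
    (D μ a f : G → ℂ) =ᵐ[μ] fun x => ∑ j, (g (a j * x) + g ((a j)⁻¹ * x)) := by
  rw [D_apply]
  have h1 : ∀ (s : Finset (Fin m)), ((∑ j ∈ s, (U μ (a j) f + U μ (a j)⁻¹ f) : Lp ℂ 2 μ) : G → ℂ)
      =ᵐ[μ] fun x => ∑ j ∈ s, (g (a j * x) + g ((a j)⁻¹ * x)) := by
    intro s
    induction s using Finset.induction_on with
    | empty =>
      simp only [Finset.sum_empty]
      exact Lp.coeFn_zero ℂ 2 μ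
    | insert j s hj ih =>
      rw [Finset.sum_insert hj]
      have e1 := Lp.coeFn_add (U μ (a j) f + U μ (a j)⁻¹ f)
        (∑ j ∈ s, (U μ (a j) f + U μ (a j)⁻¹ f))
      have e2 := Lp.coeFn_add (U μ (a j) f) (U μ (a j)⁻¹ f)
      have e3 := U_ae μ (a j) f
      have e4 := U_ae μ (a j)⁻¹ f
      have e5 := (measurePreserving_mul_left μ (a j)).quasiMeasurePreserving.ae hg
      have e6 := (measurePreserving_mul_left μ (a j)⁻¹).quasiMeasurePreserving.ae hg
      filter_upwards [ih, e1, e2, e3, e4, e5, e6] with x h1 h2 h3 h4 h5 h6 h7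
      rw [h2, Pi.add_apply, h3, Pi.add_apply, h4, h5, h6, h7, h1, Finset.sum_insert hj]
  exact h1 Finset.univ

theorem form_eq {m : ℕ} (a : Fin m → G) (f : Lp ℂ 2 μ) (g : G → ℂ) (hg : f =ᵐ[μ] g) :
    inner ℂ f (D μ a f) =
      ∫ x, (∑ j, (g (a j * x) + g ((a j)⁻¹ * x))) * starRingEnd ℂ (g x) ∂μ := by
  rw [L2.inner_def]
  refine integral_congr_ae ?_
  filter_upwards [D_ae μ a f g hg, hg] with x h1 h2
  rw [RCLike.inner_apply, h1, h2]

theorem inner_eq (f h : Lp ℂ 2 μ) (g k : G → ℂ) (hg : f =ᵐ[μ] g) (hk : h =ᵐ[μ] k) :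
    inner ℂ h f = ∫ x, g x * starRingEnd ℂ (k x) ∂μ := by
  rw [L2.inner_def]
  refine integral_congr_ae ?_
  filter_upwards [hg, hk] with x h1 h2
  rw [RCLike.inner_apply, h1, h2]

theorem norm_sq_eq (f : Lp ℂ 2 μ) (g : G → ℂ) (hg : f =ᵐ[μ] g) :
    ‖f‖ ^ 2 = ∫ x, ‖g x‖ ^ 2 ∂μ := by
  have h := inner_eq μ f f g g hg hg
  have h2 : inner ℂ f f = ((‖f‖ ^ 2 : ℝ) : ℂ) := by
    rw [inner_self_eq_norm_sq_to_K]
    norm_cast
  have h3 : (∫ x, g x * starRingEnd ℂ (g x) ∂μ) = ((∫ x, ‖g x‖ ^ 2 ∂μ : ℝ) : ℂ) := by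
    rw [← integral_complex_ofReal]
    refine integral_congr_ae (Eventually.of_forall fun x => ?_)
    simp only [Complex.mul_conj, Complex.normSq_eq_norm_sq]
  rw [h2, h3] at h
  exact_mod_cast h

theorem boundedBy_iff {m : ℕ} (a : Fin m → G) (c : ℝ) :
    BoundedBy μ a c ↔ FinBdd (D μ a) c := by
  constructor
  · rintro ⟨n, g, hg, h⟩
    refine ⟨n + 1, Fin.cons ((memLp_const (1 : ℂ)).toLp (fun _ : G => (1 : ℂ)))
      (fun i => (hg i).toLp (g i)), ?_⟩
    intro F hF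
    have h0 := hF 0
    rw [Fin.cons_zero, inner_eq μ F _ F (fun _ => 1) (ae_eq_refl _) (MemLp.coeFn_toLp _)] at h0
    have h1 : ∀ i, ∫ x, F x * starRingEnd ℂ (g i x) ∂μ = 0 := by
      intro i
      have := hF i.succ
      rw [Fin.cons_succ, inner_eq μ F _ F (g i) (ae_eq_refl _) (MemLp.coeFn_toLp _)] at this
      exact this
    have h2 := h F (Lp.memLp F) (by simpa using h0) h1
    rw [← form_eq μ a F F (ae_eq_refl _), ← norm_sq_eq μ F F (ae_eq_refl _)] at h2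
    exact h2
  · rintro ⟨n, g, h⟩
    refine ⟨n, fun i => g i, fun i => Lp.memLp (g i), ?_⟩
    intro f hf _ hg
    have h1 := h (hf.toLp f) (fun i => by
      rw [inner_eq μ _ (g i) f (g i) (MemLp.coeFn_toLp _) (ae_eq_refl _)]
      exact hg i)
    rw [form_eq μ a _ f (MemLp.coeFn_toLp _), norm_sq_eq μ _ f (MemLp.coeFn_toLp _)] at h1
    exact h1

/-- the set of tuples with more than `n` directions on one side -/
theorem not_boundedBy_iff {m : ℕ} (a : Fin m → G) (c : ℝ) :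
    ¬ BoundedBy μ a c ↔ (∀ n, Pos (D μ a) c n) ∨ (∀ n, Pos (-(D μ a)) c n) := by
  rw [boundedBy_iff]
  exact not_finBdd_iff (D_symm μ a)

theorem isOpen_pos1 (m : ℕ) (c : ℝ) (n : ℕ) : IsOpen {a : Fin m → G | Pos (D μ a) c n} :=
  isOpen_pos _ (D_cont μ) c n

theorem isOpen_pos2 (m : ℕ) (c : ℝ) (n : ℕ) : IsOpen {a : Fin m → G | Pos (-(D μ a)) c n} := by
  refine isOpen_pos (fun a : Fin m → G => -(D μ a)) (fun v => ?_) c n
  exact (D_cont μ v).neg

theorem measurableSet_not_boundedBy (m : ℕ) (c : ℝ) :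
    MeasurableSet {a : Fin m → G | ¬ BoundedBy μ a c} := by
  have : {a : Fin m → G | ¬ BoundedBy μ a c} =
      (⋂ n, {a : Fin m → G | Pos (D μ a) c n}) ∪ (⋂ n, {a : Fin m → G | Pos (-(D μ a)) c n}) := by
    ext a
    simp only [mem_setOf_eq, mem_union, mem_iInter]
    exact not_boundedBy_iff μ a c
  rw [this]
  exact (MeasurableSet.iInter fun n => (isOpen_pos1 μ m c n).measurableSet).union
    (MeasurableSet.iInter fun n => (isOpen_pos2 μ m c n).measurableSet)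

end

end Run7.h189.AR
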