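import Pool.Agent.Run7.h189.AR.DefsGap
import Pool.Agent.Run7.h189.AR.MainQ1

/-! The category question is a locally uniform statement. -/

open MeasureTheory Set Filter Topology

namespace Run7.h189.AR

section
variable {L : Type*} [NormedAddCommGroup L] [InnerProductSpace ℂ L]

theorem Pos.mono {T : L →L[ℂ] L} {c : ℝ} {n k : ℕ} (h : Pos T c n) (hk : k ≤ n) : Pos T c k := by
  obtain ⟨v, hv⟩ := h
  refine ⟨fun i => v (Fin.castLE hk i), fun x hx => ?_⟩
  set y : Fin n → ℂ := fun i => if h : i.1 < k then x ⟨i.1, h⟩ else 0 with hy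
  have hy0 : y ≠ 0 := by
    intro h0
    apply hx
    funext i
    have := congrFun h0 (Fin.castLE hk i)
    simpa [hy] using this
  have hsum : ∑ i, y i • v i = ∑ i, x i • v (Fin.castLE hk i) := by
    obtain ⟨d, rfl⟩ := Nat.exists_eq_add_of_le hk
    rw [Fin.sum_univ_add]
    have h2 : ∑ i : Fin d, y (Fin.natAdd k i) • v (Fin.natAdd k i) = 0 :=
      Finset.sum_eq_zero fun i _ => by simp [hy]
    rw [h2, add_zero]
    refine Finset.sum_congr rfl fun i _ => ?_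
    have : y (Fin.castAdd d i) = x i := by simp [hy]
    rw [this]
    rfl
  rw [← hsum]
  exact hv y hy0

theorem exists_boundN {T : L →L[ℂ] L} (hT : ∀ x y, inner ℂ (T x) y = inner ℂ x (T y)) {c : ℝ}
    {N : ℕ} (h : ¬ Pos T c N) :
    ∃ g : Fin N → L, ∀ F : L, (∀ i, inner ℂ (g i) F = 0) →
      (inner ℂ F (T F)).re ≤ c * ‖F‖ ^ 2 := by
  classical
  -- a maximal strictly positive system has fewer than `N` members
  have h' : ∃ n, ¬ Pos T c n := ⟨N, h⟩
  set M := Nat.find h' with hM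
  have hMN : M ≤ N := Nat.find_min' h' h
  have hMs : ¬ Pos T c M := Nat.find_spec h'
  have hM0 : M ≠ 0 := fun h0 => hMs (h0 ▸ Pos.zero T c)
  obtain ⟨k, hk⟩ := Nat.exists_eq_succ_of_ne_zero hM0
  have hkp : Pos T c k := by
    by_contra hc
    exact Nat.find_min h' (m := k) (by omega) hc
  obtain ⟨v, hv⟩ := hkp
  have hkN : k ≤ N := by omega
  refine ⟨fun i => if h : i.1 < k then T (v ⟨i.1, h⟩) - (c : ℂ) • v ⟨i.1, h⟩ else 0, ?_⟩
  intro F hF
  have hF' : ∀ i : Fin k, inner ℂ (T (v i) - (c : ℂ) • v i) F = 0 := by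
    intro i
    have := hF (Fin.castLE hkN i)
    simpa using this
  by_contra hcon
  push Not at hcon
  apply hMs
  rw [hk]
  exact pos_snoc hT hv F hF' hcon

end

section
variable {G : Type} [Group G] [TopologicalSpace G] [IsTopologicalGroup G] [CompactSpace G]
  [T2Space G] [SecondCountableTopology G] [MeasurableSpace G] [BorelSpace G]
  (μ : Measure G) [μ.IsHaarMeasure]

theorem boundedByN_of {m : ℕ} (a : Fin m → G) (c : ℝ) {N : ℕ} (g : Fin N → Lp ℂ 2 μ)
    (h : ∀ F : Lp ℂ 2 μ, (∀ i, inner ℂ (g i) F = 0) → |(inner ℂ F (D μ a F)).re| ≤ c * ‖F‖ ^ 2) :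
    BoundedByN μ a c N := by
  refine ⟨fun i => g i, fun i => Lp.memLp (g i), ?_⟩
  intro f hf _ hg
  have h1 := h (hf.toLp f) (fun i => by
    rw [inner_eq μ _ (g i) f (g i) (MemLp.coeFn_toLp _) (ae_eq_refl _)]
    exact hg i)
  rw [form_eq μ a _ f (MemLp.coeFn_toLp _), norm_sq_eq μ _ f (MemLp.coeFn_toLp _)] at h1
  exact h1

theorem BoundedByN.boundedBy {m : ℕ} {a : Fin m → G} {c : ℝ} {N : ℕ} {μ : Measure G}
    (h : BoundedByN μ a c N) : BoundedBy μ a c := ⟨N, h⟩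

theorem boundedByN_of_not_pos {m : ℕ} (a : Fin m → G) (c : ℝ) {N : ℕ}
    (h1 : ¬ Pos (D μ a) c N) (h2 : ¬ Pos (-(D μ a)) c N) : BoundedByN μ a c (N + N) := by
  obtain ⟨g1, hg1⟩ := exists_boundN (D_symm μ a) h1
  have hT' : ∀ x y, inner ℂ ((-(D μ a)) x) y = inner ℂ x ((-(D μ a)) y) := by
    intro x y
    simp only [ContinuousLinearMap.neg_apply, inner_neg_left, inner_neg_right, D_symm]
  obtain ⟨g2, hg2⟩ := exists_boundN hT' h2
  refine boundedByN_of μ a c (Fin.append g1 g2) ?_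
  intro F hF
  have a1 := hg1 F (fun i => by simpa using hF (Fin.castAdd N i))
  have a2 := hg2 F (fun i => by
    have := hF (Fin.natAdd N i)
    rwa [Fin.append_right] at this)
  rw [abs_le]
  simp only [ContinuousLinearMap.neg_apply, inner_neg_right, Complex.neg_re] at a2
  constructor <;> linarith

variable [ConnectedSpace G]

/-- on a dense open set the number of exceptional eigenvalues is locally bounded -/
theorem dense_locally (n : ℕ) (hQ : Q1 μ (n + 2)) (ε : ℝ) (hε : 0 < ε) :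
    Dense {a : Fin (n + 2) → G | ∃ N : ℕ, ∀ᶠ b in 𝓝 a,
      BoundedByN μ b (2 * Real.sqrt (2 * ((n + 2 : ℕ) : ℝ) - 1) + ε) N} := by
  set c : ℝ := 2 * Real.sqrt (2 * ((n + 2 : ℕ) : ℝ) - 1) + ε with hc
  obtain ⟨t, ht, ht1, ht2⟩ := mem_residual.1 ((q1_iff μ n).1 hQ)
  set C : ℕ → Set (Fin (n + 2) → G) := fun N =>
    {a | Pos (D μ a) c N}ᶜ ∩ {a | Pos (-(D μ a)) c N}ᶜ with hC
  have hCc : ∀ N, IsClosed (C N) := fun N =>
    (isOpen_pos1 μ (n + 2) c N).isClosed_compl.inter (isOpen_pos2 μ (n + 2) c N).isClosed_compl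
  have hcov : t ⊆ ⋃ N, C N := by
    intro a ha
    have h1 : BoundedBy μ a c := ht ha ε hε
    have h2 : ¬ ((∀ n, Pos (D μ a) c n) ∨ (∀ n, Pos (-(D μ a)) c n)) := by
      rw [← not_boundedBy_iff]
      exact not_not.2 h1
    push Not at h2
    obtain ⟨⟨n1, h3⟩, ⟨n2, h4⟩⟩ := h2
    refine mem_iUnion.2 ⟨max n1 n2, ?_, ?_⟩
    · exact fun h => h3 (Pos.mono h (le_max_left _ _))
    · exact fun h => h4 (Pos.mono h (le_max_right _ _))
  have hd := ht1.dense_iUnion_interior_of_closed ht2 hCc hcov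
  refine hd.mono ?_
  intro a ha
  obtain ⟨N, hN⟩ := mem_iUnion.1 ha
  refine ⟨N + N, ?_⟩
  filter_upwards [mem_interior_iff_mem_nhds.1 hN] with b hb
  exact boundedByN_of_not_pos μ b c hb.1 hb.2

theorem q1_iff_uniform (m : ℕ) (hm : 2 ≤ m) :
    Q1 μ m ↔ ∀ ε : ℝ, 0 < ε → Dense {a : Fin m → G | ∃ N : ℕ, ∀ᶠ b in 𝓝 a,
      BoundedByN μ b (2 * Real.sqrt (2 * (m : ℝ) - 1) + ε) N} := by
  obtain ⟨n, rfl⟩ : ∃ n, m = n + 2 := ⟨m - 2, by omega⟩
  constructor
  · intro h ε hε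
    exact dense_locally μ n h ε hε
  · intro h
    rw [q1_iff]
    have h1 : ∀ j : ℕ, ∀ᶠ a in residual (Fin (n + 2) → G), ∃ N : ℕ, ∀ᶠ b in 𝓝 a,
        BoundedByN μ b (2 * Real.sqrt (2 * ((n + 2 : ℕ) : ℝ) - 1) + 1 / ((j : ℝ) + 1)) N := by
      intro j
      refine residual_of_dense_open ?_ (h (1 / ((j : ℝ) + 1)) (by positivity))
      rw [isOpen_iff_mem_nhds]
      rintro a ⟨N, hN⟩
      filter_upwards [hN.eventually_nhds] with b hb
      exact ⟨N, hb⟩
    rw [← eventually_countable_forall] at h1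
    filter_upwards [h1] with a ha
    by_contra hcon
    have h2 : a ∈ {a : Fin (n + 2) → G | ¬ AsympRamanujan μ a} := hcon
    rw [not_ramanujan_eq] at h2
    obtain ⟨j, hj⟩ := mem_iUnion.1 h2
    obtain ⟨N, hN⟩ := ha j
    exact hj hN.self_of_nhds.boundedBy

end

end Run7.h189.AR
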